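import Pool.Agent.V5helper86.GB.Grow
import Pool.Agent.V5helper85.AB.Base

/-!
# The growth criterion
-/

open CategoryTheory AlgebraicGeometry TensorProduct Function Module

universe u v

namespace Pool.Agent.V5helper86.GB

open Pool.Agent.H914 Pool.Agent.H914.VarClass Pool.Agent.H914.VarClass.Obj
  Pool.Agent.H914.WeilCohomology Pool.Agent.V5helper85.AB Pool.Agent.Y163 Pool.Agent.W534

variable {k : Type u} [Field k] {𝒱 : VarClass k} {ops : CycleOps 𝒱}
  {W : WeilCohomology.{u, v} ops} {X P : 𝒱.Obj}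

lemma separating_of_card {N : ℕ} {S : Finset ℝ} (hS : N < S.card) :
    Separating N (S : Set ℝ) := by
  intro p hp h
  by_contra hp0
  have h1 : p.map (algebraMap ℚ ℝ) ≠ 0 := by
    rwa [Ne, Polynomial.map_eq_zero_iff (algebraMap ℚ ℝ).injective]
  have h2 : S.val ⊆ (p.map (algebraMap ℚ ℝ)).roots := by
    intro t ht
    rw [Polynomial.mem_roots h1]
    change (p.map (algebraMap ℚ ℝ)).eval t = 0
    rw [Polynomial.eval_map_algebraMap]
    exact h t ht
  have h3 : S ⊆ (p.map (algebraMap ℚ ℝ)).roots.toFinset := by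
    intro t ht
    rw [Multiset.mem_toFinset]
    exact h2 ht
  have h4 := (Finset.card_le_card h3).trans (Multiset.toFinset_card_le _)
  have h5 := h4.trans (Polynomial.card_roots' _)
  rw [Polynomial.natDegree_map] at h5
  omega

lemma signSpan_iff : SignSpan W X ↔ par (W.isInternal X) ∈ KOp W X X 0 := by
  rw [mem_KOp_iff, add_zero]
  constructor
  · rintro ⟨γ, hγ, h⟩
    refine ⟨γ, hγ, ?_⟩
    apply gr_ext (W.isInternal X)
    intro i a ha
    rw [h i a ha, par_gr ha]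
  · rintro ⟨γ, hγ, h⟩
    exact ⟨γ, hγ, fun i a ha => by rw [h, par_gr ha]⟩

lemma signSpan_of_B {D : X.Cycles} (hD : X.IsCyc 1 D) (hHL : HardLefschetz W X D)
    (hB : LefschetzB W X D) : SignSpan W X := by
  rw [signSpan_iff]
  have h1 : par (W.isInternal X) = ∑ e ∈ Finset.range (2 * X.dim + 1),
      (-1 : W.K) ^ e • proj (W.isInternal X) e := by
    apply gr_ext (W.isInternal X)
    intro i a ha
    rw [par_gr ha, LinearMap.sum_apply]
    by_cases hi : i < 2 * X.dim + 1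
    · rw [Finset.sum_eq_single i]
      · rw [LinearMap.smul_apply, proj_same _ ha]
      · intro j _ hj
        rw [LinearMap.smul_apply, proj_ne _ ha (Ne.symm hj), smul_zero]
      · intro h
        exact absurd (Finset.mem_range.2 hi) h
    · rw [W.gr_eq_bot X i (by omega), Submodule.mem_bot] at ha
      rw [ha, smul_zero]
      symm
      exact Finset.sum_eq_zero fun j _ => map_zero _
  rw [h1]
  refine Submodule.sum_mem _ fun e he => Submodule.smul_mem _ _ ?_
  rw [Finset.mem_range] at he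
  exact (star_of_B hD hHL hB (by omega)).pr

/-- The growth criterion, for arbitrary coefficient fields. -/
lemma lefschetzB_of_growth (hC : SignSpan W X) (hP : IsPoint W P) {S : Set ℝ}
    (hS : Separating (2 * X.dim) S) (hpos : ∀ t ∈ S, 0 < t) (hgrow : ∀ t ∈ S, MaxGrowth W X t)
    {D : X.Cycles} (hD : X.IsCyc 1 D) (hHL : HardLefschetz W X D) : LefschetzB W X D := by
  have : IsAlgClosed (baseW W (AlgebraicClosure W.K)).K :=
    (inferInstance : IsAlgClosed (AlgebraicClosure W.K))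
  apply lefschetzB_down (L := AlgebraicClosure W.K)
  exact lefB_of_growth (Pool.Agent.R940.par_mem_base _ (signSpan_iff.1 hC)) (isPoint_base _ hP)
    hS hpos
    (fun t ht => (maxGrowth_base _ t).2 (hgrow t ht)) hD (base_hardLefschetz hD hHL)

/-- The lower bound, for arbitrary coefficient fields. -/
lemma betti_sq_le' {D : X.Cycles} (hD : X.IsCyc 1 D)
    (hHL : HardLefschetz W X D) (hB : LefschetzB W X D) (n e : ℕ) :
    W.betti (pw X n) e ^ 2 ≤
      (n + 2) ^ (finrank W.K (W.H X) ^ 2) * numRank ops (Pool.Agent.Y163.sq X n) e := by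
  have : IsAlgClosed (baseW W (AlgebraicClosure W.K)).K :=
    (inferInstance : IsAlgClosed (AlgebraicClosure W.K))
  have h1 := betti_sq_le (W := baseW W (AlgebraicClosure W.K)) hD (base_hardLefschetz hD hHL)
    (lefschetzB_up _ hD hHL hB) n e
  rwa [betti_base, Pool.Agent.R940.finrank_baseW] at h1

lemma exists_transcendental : ∃ t : ℝ, 0 < t ∧ Transcendental ℚ t := by
  have h1 := (Algebraic.countable ℚ ℝ).dense_compl ℝ
  obtain ⟨t, ht, h2⟩ := h1.exists_mem_open (isOpen_Ioi (a := (0 : ℝ)))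
    ⟨(1 : ℝ), Set.mem_Ioi.2 one_pos⟩
  exact ⟨t, h2, ht⟩

/-- **The growth criterion.** -/
theorem tfae {D : X.Cycles} (hD : X.IsCyc 1 D) (hHL : HardLefschetz W X D) (hP : IsPoint W P) :
    List.TFAE [
      LefschetzB W X D,
      SignSpan W X ∧ ∀ n e : ℕ, W.betti (pw X n) e ^ 2 ≤
        (n + 2) ^ (finrank W.K (W.H X) ^ 2) * numRank ops (Pool.Agent.Y163.sq X n) e,
      SignSpan W X ∧ ∀ ε : ℝ, 0 < ε → ∀ M : ℕ, ∃ n ≥ M, ∀ e : ℕ,
        (W.betti (pw X n) e : ℝ) ^ 2 ≤
          (1 + ε) ^ n * (numRank ops (Pool.Agent.Y163.sq X n) e : ℝ),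
      SignSpan W X ∧ ∀ t : ℝ, 0 < t → MaxGrowth W X t,
      SignSpan W X ∧ ∃ t : ℝ, 0 < t ∧ (∀ q : Polynomial ℚ, q ≠ 0 → q.natDegree ≤ 2 * X.dim →
        Polynomial.aeval t q ≠ 0) ∧ MaxGrowth W X t,
      SignSpan W X ∧ ∃ S : Finset ℝ, S.card = 2 * X.dim + 1 ∧
        ∀ t ∈ S, 0 < t ∧ MaxGrowth W X t] := by
  tfae_have 1 → 2 := fun hB => ⟨signSpan_of_B hD hHL hB, fun n e => betti_sq_le' hD hHL hB n e⟩
  tfae_have 2 → 3 := by
    rintro ⟨hC, h⟩
    refine ⟨hC, fun ε hε M => ?_⟩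
    obtain ⟨N, hN⟩ := sub_exp (finrank W.K (W.H X) ^ 2) hε
    refine ⟨max M N, le_max_left _ _, fun e => ?_⟩
    have h1 : (W.betti (pw X (max M N)) e : ℝ) ^ 2 ≤
        (((max M N : ℕ) : ℝ) + 2) ^ (finrank W.K (W.H X) ^ 2) *
          (numRank ops (Pool.Agent.Y163.sq X (max M N)) e : ℝ) := by
      exact_mod_cast h (max M N) e
    exact h1.trans (mul_le_mul_of_nonneg_right (hN _ (le_max_right _ _)) (Nat.cast_nonneg _))
  tfae_have 3 → 4 := fun ⟨hC, h⟩ => ⟨hC, fun t ht => maxGrowth_of_sq h ht⟩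
  tfae_have 4 → 5 := by
    rintro ⟨hC, h⟩
    obtain ⟨t, ht, h1⟩ := exists_transcendental
    exact ⟨hC, t, ht, fun q hq _ h0 => h1 ⟨q, hq, h0⟩, h t ht⟩
  tfae_have 5 → 1 := by
    rintro ⟨hC, t, ht, h1, h2⟩
    refine lefschetzB_of_growth (P := P) (S := {t}) hC hP (fun q hq h0 => ?_) ?_ ?_ hD hHL
    · by_contra hq0
      exact h1 q hq0 hq (h0 t rfl)
    · rintro _ rfl
      exact ht
    · rintro _ rfl
      exact h2
  tfae_have 4 → 6 := by
    rintro ⟨hC, h⟩
    obtain ⟨S, hS, hS2⟩ := (Set.Ioi_infinite (0 : ℝ)).exists_subset_card_eq (2 * X.dim + 1)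
    exact ⟨hC, S, hS2, fun t ht => ⟨hS ht, h t (hS ht)⟩⟩
  tfae_have 6 → 1 := by
    rintro ⟨hC, S, hS, h⟩
    exact lefschetzB_of_growth (P := P) hC hP (separating_of_card (S := S) (by omega))
      (fun t ht => (h t ht).1) (fun t ht => (h t ht).2) hD hHL
  tfae_finish

end Pool.Agent.V5helper86.GB
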