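import Pool.Agent.Y163.Defs
import Pool.Agent.H914R2.StdDefs

/-!
# Growth of the ranks of the groups of cycles on powers: definitions
-/

universe u v

namespace Pool.Agent.V5helper86.GB

open Pool.Agent.H914 Pool.Agent.H914.VarClass Pool.Agent.H914.VarClass.Obj
  Pool.Agent.H914.WeilCohomology Pool.Agent.W534 Pool.Agent.Y163

variable {k : Type u} [Field k] {𝒱 : VarClass k} {ops : CycleOps 𝒱}

/-- The variety `P` is a point: it has dimension zero and one-dimensional cohomology. -/
def IsPoint (W : WeilCohomology.{u, v} ops) (P : 𝒱.Obj) : Prop :=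
  P.dim = 0 ∧ Module.finrank W.K (W.H P) = 1

/-- The standard conjecture `C⁺(X)` with coefficients in `K`: a `K`-linear combination of classes of
algebraic cycles on `X × X` acts on `H^i(X)` as the multiplication by `(-1) ^ i`, for all `i`. -/
def SignSpan (W : WeilCohomology.{u, v} ops) (X : 𝒱.Obj) : Prop :=
  ∃ γ ∈ spanCycles W (X.prod X) (X.dim : ℤ), ∀ i, ∀ a ∈ W.gr X i,
    W.corr γ a = (-1 : W.K) ^ i • a

/-- The value at `u` of the Poincaré polynomial, the sum of the `b_i(X) u ^ i`. -/
noncomputable def poincare (W : WeilCohomology.{u, v} ops) (X : 𝒱.Obj) (u : ℝ) : ℝ :=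
  ∑ i ∈ Finset.range (2 * X.dim + 1), (W.betti X i : ℝ) * u ^ i

/-- The sum of the `r_j(X) u ^ (2 j)`, where `r_j(X)` is the rank of the group of the cycles of
codimension `j` on `X` modulo numerical equivalence. -/
noncomputable def rankPoly (ops : CycleOps 𝒱) (X : 𝒱.Obj) (u : ℝ) : ℝ :=
  ∑ j ∈ Finset.range (X.dim + 1), (numRank ops X j : ℝ) * u ^ (2 * j)

/-- The ranks of the groups of cycles on the powers of `X`, weighted by `u`, have the maximal
exponential growth: for every `a` smaller than the value of the Poincaré polynomial of `X` at `u`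
the value at `u` of the polynomial with the coefficients `r_j(X ^ m)` is at least `a ^ m` for
arbitrarily large `m`. -/
def MaxGrowth (W : WeilCohomology.{u, v} ops) (X : 𝒱.Obj) (u : ℝ) : Prop :=
  ∀ a : ℝ, 0 ≤ a → a < poincare W X u → ∀ M, ∃ n ≥ M, a ^ (n + 1) ≤ rankPoly ops (pw X n) u

end Pool.Agent.V5helper86.GB
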