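import Mathlib

/-!
# Linear algebra
-/

open Finset Module

universe v

namespace Pool.Agent.V5helper86.GB

variable {K : Type*} [Field K] {V : Type*} [AddCommGroup V] [Module K V]

/-- A functional which vanishes on the kernel of a form is given by the form. -/
lemma exists_repr {A : Type*} [AddCommGroup A] [Module K A] [Module.Finite K A]
    (B : A →ₗ[K] Module.Dual K A) (θ : Module.Dual K A) (h : ∀ a, B a = 0 → θ a = 0) :
    ∃ μ : A, ∀ a, θ a = B a μ := by
  have h1 : θ ∈ LinearMap.range B.dualMap := by
    rw [LinearMap.range_dualMap_eq_dualAnnihilator_ker, Submodule.mem_dualAnnihilator]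
    intro a ha
    exact h a ha
  obtain ⟨Ψ, hΨ⟩ := h1
  obtain ⟨μ, hμ⟩ := (Module.evalEquiv K A).surjective Ψ
  refine ⟨μ, fun a => ?_⟩
  rw [← hΨ, ← hμ]
  rfl

/-- The trace of a diagonal operator. -/
lemma trace_diag {ι : Type*} [Fintype ι] (b : Basis ι K V) {f : Module.End K V} {c : ι → K}
    (h : ∀ a, f (b a) = c a • b a) : LinearMap.trace K V f = ∑ a, c a := by
  classical
  rw [LinearMap.trace_eq_matrix_trace K b, Matrix.trace]
  refine Finset.sum_congr rfl fun a _ => ?_
  rw [Matrix.diag_apply, LinearMap.toMatrix_apply, h, map_smul, Basis.repr_self,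
    Finsupp.smul_apply, Finsupp.single_eq_same, smul_eq_mul, mul_one]

/-- A semisimple operator over an algebraically closed field is diagonalizable. -/
lemma iSup_eigenspace [IsAlgClosed K] [Module.Finite K V] {s : Module.End K V}
    (hs : s.IsSemisimple) : ⨆ c, s.eigenspace c = ⊤ := by
  have h1 := Module.End.iSup_maxGenEigenspace_eq_top s
  have h2 : ∀ c, s.maxGenEigenspace c = s.eigenspace c := fun c =>
    hs.isFinitelySemisimple.maxGenEigenspace_eq_eigenspace c
  simp_rw [h2] at h1
  exact h1

/-- A basis of eigenvectors. -/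
lemma exists_eigenbasis {K : Type v} [Field K] {V : Type v} [AddCommGroup V] [Module K V]
    [Module.Finite K V] {s : Module.End K V} (hs : ⨆ c, s.eigenspace c = ⊤) :
    ∃ (ι : Type v) (b : Basis ι K V) (c : ι → K), ∀ i, s (b i) = c i • b i := by
  classical
  have h1 : DirectSum.IsInternal fun c : K => s.eigenspace c :=
    DirectSum.isInternal_submodule_of_iSupIndep_of_iSup_eq_top s.eigenspaces_iSupIndep hs
  let bs : ∀ c : K, Basis (Module.Free.ChooseBasisIndex K (s.eigenspace c)) K (s.eigenspace c) :=
    fun c => Module.Free.chooseBasis K (s.eigenspace c)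
  refine ⟨Σ c : K, Module.Free.ChooseBasisIndex K (s.eigenspace c), h1.collectedBasis bs,
    fun i => i.1, fun i => ?_⟩
  exact Module.End.mem_eigenspace_iff.1 (h1.collectedBasis_mem bs i)

/-- A subspace on which `s + ν` acts as the scalar `c` modulo `N`. -/
lemma le_sup_of_scalar [Module.Finite K V] {s ν : Module.End K V} (hcomm : Commute s ν)
    (hν : IsNilpotent ν) (hs : ⨆ c, s.eigenspace c = ⊤) {S N : Submodule K V}
    (hSs : ∀ x ∈ S, s x ∈ S) (hSν : ∀ x ∈ S, ν x ∈ S) {c : K}
    (h : ∀ x ∈ S, (s + ν) x - c • x ∈ N) : S ≤ (S ⊓ s.eigenspace c) ⊔ N := by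
  obtain ⟨k, hk⟩ := hν
  -- the other eigenspaces
  have key : ∀ c', c' ≠ c → ∀ i ≤ k, ∀ x ∈ S ⊓ s.eigenspace c', (ν ^ (k - i)) x ∈ N := by
    intro c' hc' i
    induction i with
    | zero =>
      intro _ x _
      rw [Nat.sub_zero, hk]
      exact Submodule.zero_mem _
    | succ i ih =>
      intro hi x hx
      have h1 := ih (by omega) x hx
      have hcx : Commute s (ν ^ (k - (i + 1))) := hcomm.pow_right _
      set y := (ν ^ (k - (i + 1))) x with hy
      have hyS : y ∈ S := by
        have h2 : ∀ n : ℕ, (ν ^ n) x ∈ S := by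
          intro n
          induction n with
          | zero => exact hx.1
          | succ n ihn =>
            rw [pow_succ']
            exact hSν _ ihn
        exact h2 _
      have hsy : s y = c' • y := by
        have h2 := congrArg (fun F => F x) hcx.eq
        simp only [Module.End.mul_apply] at h2
        rw [hy, h2, Module.End.mem_eigenspace_iff.1 hx.2, map_smul]
      have hνy : ν y = (ν ^ (k - i)) x := by
        rw [hy, ← Module.End.mul_apply, ← pow_succ']
        congr 2
        omega
      have h2 := h y hyS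
      rw [LinearMap.add_apply, hsy, hνy] at h2
      have h3 : (c' - c) • y ∈ N := by
        have h4 := Submodule.sub_mem _ h2 h1
        have h5 : c' • y + (ν ^ (k - i)) x - c • y - (ν ^ (k - i)) x = (c' - c) • y := by
          rw [sub_smul]
          abel
        rwa [h5] at h4
      have h4 : (c' - c) ≠ 0 := sub_ne_zero.2 hc'
      have h5 := Submodule.smul_mem _ ((c' - c)⁻¹) h3
      rwa [smul_smul, inv_mul_cancel₀ h4, one_smul] at h5
  have h1 : S = ⨆ c', S ⊓ s.eigenspace c' := by
    have h2 := Submodule.eq_iSup_inf_genEigenspace (p := S) (f := s) (k := 1) hSs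
      (by simpa only [Module.End.eigenspace] using hs)
    simpa only [Module.End.eigenspace] using h2
  conv_lhs => rw [h1]
  refine iSup_le fun c' => ?_
  by_cases hc : c' = c
  · subst hc
    exact le_sup_left
  · intro x hx
    have h2 := key c' hc k (le_refl k) x hx
    rw [Nat.sub_self, pow_zero] at h2
    exact Submodule.mem_sup_right h2

end Pool.Agent.V5helper86.GB
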