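import Pool.Agent.V5helper85.AB.Wt
import Pool.Agent.Y163.Pow
import Pool.Agent.V5helper86.GB.Lin
import Pool.Agent.V5helper86.GB.Defs

/-!
# Points, rank-one operators, and derivations on the cohomology of powers
-/

open CategoryTheory AlgebraicGeometry TensorProduct Function Module

universe u v w w'

set_option linter.unusedSectionVars false

namespace Pool.Agent.V5helper86.GB

open Pool.Agent.H914 Pool.Agent.H914.VarClass Pool.Agent.H914.VarClass.Obj
  Pool.Agent.H914.WeilCohomology Pool.Agent.R908 Pool.Agent.H447 Pool.Agent.N180.Cf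
  Pool.Agent.W534 Pool.Agent.V5helper85.AB

variable {k : Type u} [Field k] {𝒱 : VarClass k} {ops : CycleOps 𝒱}
  {W : WeilCohomology.{u, v} ops} {X Y Z V P : 𝒱.Obj}

namespace IsPoint

variable (hP : IsPoint W P)
include hP

lemma one_ne : (1 : W.H P) ≠ 0 := by
  intro h0
  have h1 : ∀ x : W.H P, x = 0 := fun x => by rw [← mul_one x, h0, mul_zero]
  have h2 : Subsingleton (W.H P) := ⟨fun x y => by rw [h1 x, h1 y]⟩
  have h3 := Module.finrank_zero_of_subsingleton (R := W.K) (M := W.H P)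
  rw [hP.2] at h3
  omega

lemma exists_smul (y : W.H P) : ∃ c : W.K, c • (1 : W.H P) = y :=
  (finrank_eq_one_iff_of_nonzero' (1 : W.H P) hP.one_ne).1 hP.2 y

lemma mem_gr (y : W.H P) : y ∈ W.gr P 0 := by
  obtain ⟨c, rfl⟩ := hP.exists_smul y
  exact Submodule.smul_mem _ _ (W.one_mem P)

lemma tr_ne : W.tr P 1 ≠ 0 := by
  intro h0
  apply hP.one_ne
  apply W.nondeg
  intro b
  obtain ⟨c, rfl⟩ := hP.exists_smul b
  rw [one_mul, map_smul, h0, smul_zero]

lemma prod {Q : 𝒱.Obj} (hQ : IsPoint W Q) : IsPoint W (P.prod Q) := by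
  refine ⟨by rw [dim_prod, hP.1, hQ.1], ?_⟩
  rw [← (kappa W P Q).finrank_eq, Module.finrank_tensorProduct, hP.2, hQ.2]

lemma homEqNum : HomEqNum W P := by
  intro j hj z hz h
  have hj0 : j = 0 := by
    have := hP.1
    omega
  subst hj0
  obtain ⟨c, hc⟩ := hP.exists_smul (W.cl P z)
  have h1 : P.IsCyc (P.dim - 0) P.V.fundCycle := by
    rw [hP.1]
    exact P.V.fundCycle_mem
  have h2 := h _ h1
  have h3 : P.IsCyc P.dim (ops.mul z P.V.fundCycle) := by
    have h4 := ops.mul_mem hz P.V.fundCycle_mem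
    rw [add_zero] at h4
    rw [hP.1]
    exact h4
  have h4 := W.tr_cl h3
  rw [h2, W.cl_mul, W.cl_fund, mul_one, ← hc, map_smul, smul_eq_mul, Rat.cast_zero] at h4
  have h5 := (mul_eq_zero.1 h4).resolve_right hP.tr_ne
  rw [← hc, h5, zero_smul]

end IsPoint

lemma isPoint_prods (hP : IsPoint W P) (Q : 𝒱.Obj) (hQ : IsProductOf {P} Q) : IsPoint W Q := by
  induction hQ with
  | base h =>
    rw [Set.mem_singleton_iff] at h
    rw [h]
    exact hP
  | prod _ _ h1 h2 => exact h1.prod h2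

lemma homEqNum_prods (hP : IsPoint W P) (Q : 𝒱.Obj) (hQ : IsProductOf {P} Q) : HomEqNum W Q :=
  (isPoint_prods hP Q hQ).homEqNum

/-! ### Rank-one operators -/

lemma par_span {j : ℤ} {α : W.H V} (hα : α ∈ spanCycles W V j) : par (W.isInternal V) α = α := by
  induction hα using Submodule.span_induction with
  | mem x hx =>
    obtain ⟨p, -, z, hz, rfl⟩ := hx
    have h1 : par (W.isInternal V) (W.cl V z) = (-1 : W.K) ^ (2 * p) • W.cl V z :=
      scal_apply (W.isInternal V) _ (W.cl_mem hz)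
    rw [h1, pow_mul, neg_one_sq, one_pow, one_smul]
  | zero => rw [map_zero]
  | add x y _ _ hx hy => rw [map_add, hx, hy]
  | smul c x _ hx => rw [map_smul, hx]

/-- The operator `x ↦ tr (β x) α`. -/
noncomputable def rone (W : WeilCohomology.{u, v} ops) {V : 𝒱.Obj} (α β : W.H V) :
    W.H V →ₗ[W.K] W.H V :=
  (W.tr V ∘ₗ LinearMap.mulLeft W.K β).smulRight α

lemma rone_mem {i j : ℤ} {α β : W.H V} (hα : α ∈ spanCycles W V i) (hβ : β ∈ spanCycles W V j)
    (hij : i + j = V.dim) : rone W α β ∈ KOp W V V 0 := by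
  have h1 : rone W α β = W.corr (W.map (fst V V) β * W.map (snd V V) α) := by
    apply LinearMap.ext
    intro x
    rw [corr_apply, mul_assoc, span_comm (span_map (snd V V) hα), ← mul_assoc, ← map_mul,
      push_snd]
    rfl
  rw [mem_KOp_iff]
  refine ⟨_, ?_, h1.symm⟩
  have h2 := span_mul (span_map (fst V V) hβ) (span_map (snd V V) hα)
  rwa [show j + i = (V.dim : ℤ) + 0 by omega] at h2

lemma str_rone {i : ℤ} {α β : W.H V} (hα : α ∈ spanCycles W V i) (R : W.H V →ₗ[W.K] W.H V) :
    str W V (rone W α β ∘ₗ R) = W.tr V (β * R α) := by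
  have h1 : par (W.isInternal V) ∘ₗ (rone W α β ∘ₗ R) =
      (W.tr V ∘ₗ LinearMap.mulLeft W.K β ∘ₗ R).smulRight α := by
    apply LinearMap.ext
    intro x
    rw [LinearMap.comp_apply, LinearMap.comp_apply, rone, LinearMap.smulRight_apply,
      LinearMap.smulRight_apply, map_smul, par_span hα]
    rfl
  rw [str, h1, LinearMap.trace_smulRight]
  rfl

/-- **Intersection numbers of derivatives are super traces on `X`.** -/
lemma exists_z {m : ℕ} {i j : ℤ} {α β : W.H (pX X P m)} (hα : α ∈ spanCycles W _ i)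
    (hβ : β ∈ spanCycles W _ j) (hij : i + j = (pX X P m).dim) :
    ∃ z ∈ KOp W X X 0, ∀ E : W.H X →ₗ[W.K] W.H X, IsHom (W.gr X) 0 E →
      str W X (z ∘ₗ E) = W.tr _ (β * dm W P E m α) := by
  have h0 : rone W α β ∈ KOp W (pX X P m) (pX X P m) 0 := rone_mem (V := pX X P m) hα hβ hij
  obtain ⟨z, hz, h⟩ := exists_ptr (W := W) (X := X) P m (y := rone W α β) h0
  refine ⟨z, hz, fun E hE => ?_⟩
  rw [h E hE, str_rone hα]

lemma dm_mem {E : W.H X →ₗ[W.K] W.H X} (hE : E ∈ KOp W X X 0) : ∀ m,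
    dm W P E m ∈ KOp W (pX X P m) (pX X P m) 0
  | 0 => Submodule.zero_mem _
  | m + 1 => by
    have h1 : extHom W E (LinearMap.id : W.H (pX X P m) →ₗ[W.K] W.H (pX X P m)) ∈
        KOp W (X.prod (pX X P m)) (X.prod (pX X P m)) 0 :=
      KOp.cast (KOp.extHom hE (KOp.id _)) (add_zero 0)
    have h2 : extHom W (LinearMap.id : W.H X →ₗ[W.K] W.H X) (dm W P E m) ∈
        KOp W (X.prod (pX X P m)) (X.prod (pX X P m)) 0 :=
      KOp.cast (KOp.extHom (KOp.id _) (dm_mem hE m)) (add_zero 0)
    exact Submodule.add_mem _ h1 h2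

/-! ### The degree operator -/

/-- The operator which acts on `H^i(X)` as `i - dim X`. -/
noncomputable def hop (W : WeilCohomology.{u, v} ops) (X : 𝒱.Obj) : W.H X →ₗ[W.K] W.H X :=
  scal (W.isInternal X) (fun i => (i : W.K) - (X.dim : W.K))

lemma hop_apply {i : ℕ} {a : W.H X} (ha : a ∈ W.gr X i) :
    hop W X a = ((i : W.K) - (X.dim : W.K)) • a :=
  scal_apply (W.isInternal X) _ ha

lemma hop_isHom : IsHom (W.gr X) 0 (hop W X) := isHom_scal _ _

lemma hop_point (hP : IsPoint W P) : hop W P = 0 := by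
  apply LinearMap.ext
  intro y
  rw [hop_apply (hP.mem_gr y), hP.1, Nat.cast_zero, sub_zero, zero_smul, LinearMap.zero_apply]

lemma hop_prod : hop W (X.prod Y) = extHom W (hop W X) LinearMap.id +
    extHom W LinearMap.id (hop W Y) := by
  apply LinearMap.ext
  intro c
  refine W.kunneth_induction (p := fun c => hop W (X.prod Y) c =
    (extHom W (hop W X) LinearMap.id + extHom W LinearMap.id (hop W Y) :
      W.H (X.prod Y) →ₗ[W.K] W.H (X.prod Y)) c) ?_ ?_ c
  · intro a b ha hb
    rw [map_add, map_add, ha, hb]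
  · intro i j a ha b hb
    rw [hop_apply (W.mul_mem (W.map_mem (fst X Y) ha) (W.map_mem (snd X Y) hb)),
      LinearMap.add_apply, extHom_tmul, extHom_tmul, hop_apply ha, hop_apply hb,
      LinearMap.id_apply, LinearMap.id_apply, map_smul, map_smul, smul_mul_assoc, mul_smul_comm,
      ← add_smul, dim_prod]
    congr 1
    push_cast
    ring

lemma dm_hop (hP : IsPoint W P) : ∀ m, dm W P (hop W X) m = hop W (pX X P m)
  | 0 => (hop_point hP).symm
  | m + 1 => by
    change extHom W (hop W X) LinearMap.id + extHom W LinearMap.id (dm W P (hop W X) m) =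
      hop W (X.prod (pX X P m))
    rw [dm_hop hP m, hop_prod]

lemma hop_span {j : ℕ} {α : W.H V} (hα : α ∈ spanCycles W V (j : ℤ)) :
    hop W V α = (2 * (j : W.K) - (V.dim : W.K)) • α := by
  rw [hop_apply (Pool.Agent.H914.span_gr hα)]
  push_cast
  rfl

lemma dim_pX (hP : IsPoint W P) (m : ℕ) : (pX X P m).dim = m * X.dim := by
  induction m with
  | zero =>
    change P.dim = _
    rw [hP.1, zero_mul]
  | succ m ih =>
    change (X.prod (pX X P m)).dim = _
    rw [dim_prod, ih]
    ring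

end Pool.Agent.V5helper86.GB
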