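import Pool.Agent.TH132.A.HLf
import Pool.Agent.W534.Hyp3
import Pool.Agent.Y163.Idx
import Pool.Agent.V5helper86.GB.Geo

/-!
# The Lefschetz standard conjecture for the powers of a variety

The statements of this file are known (Kleiman); the proofs are as in `Pool.Agent.X310.Mom5` and
`Pool.Agent.TH125.Gal.Lef`.
-/

open CategoryTheory AlgebraicGeometry TensorProduct Function Module

universe u v

set_option linter.unusedSectionVars false

namespace Pool.Agent.V5helper86.GB

open Pool.Agent.H914 Pool.Agent.H914.VarClass Pool.Agent.H914.VarClass.Obj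
  Pool.Agent.H914.WeilCohomology Pool.Agent.R908 Pool.Agent.H447 Pool.Agent.N180.Cf
  Pool.Agent.W534 Pool.Agent.V5helper85.AB Pool.Agent.Y163 Pool.Agent.W552 Pool.Agent.H281R3.HT

variable {k : Type u} [Field k] {𝒱 : VarClass k} {ops : CycleOps 𝒱}
  {W : WeilCohomology.{u, v} ops} {X Y Z V P : 𝒱.Obj}

lemma hLh {D : X.Cycles} (hD : X.IsCyc 1 D) :
    IsHom (W.gr X) 2 (LinearMap.mulLeft W.K (W.cl X D)) := by
  simpa using rop_opAlg.hom (rop_mulLeft (W := W) hD)

/-- Hard Lefschetz for products. -/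
lemma hard_prod {D : X.Cycles} {E : Y.Cycles} (hD : X.IsCyc 1 D)
    (hE : Y.IsCyc 1 E) (h1 : HardLefschetz W X D) (h2 : HardLefschetz W Y E) :
    HardLefschetz W (X.prod Y) (ops.pull (fst X Y) D + ops.pull (snd X Y) E) := by
  obtain ⟨f, tf⟩ := TH132.A.exists_low hD h1
  obtain ⟨g, tg⟩ := TH132.A.exists_low hE h2
  have t := TH132.A.low_prod hE tf tg
  refine TH132.A.hardLefschetz_of_inj (SmVar.IsCyc.add (ops.pull_mem _ hD) (ops.pull_mem _ hE))
    fun i hi a ha h0 => ?_
  by_contra ha0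
  refine Sl2.e_pow_inj t (x := a) (M := (X.prod Y).dim - i) ?_ ha0 le_rfl h0
  rw [wt, scal_apply _ _ ha, node]
  congr 1
  rw [Nat.cast_sub hi]
  push_cast
  ring

/-- The conjecture B gives an algebraic lowering operator. -/
lemma exists_low_kop {D : X.Cycles} (hD : X.IsCyc 1 D) (hX : HardLefschetz W X D)
    (hB : LefschetzB W X D) : ∃ f, TH132.A.Low W X D f ∧ f ∈ KOp W X X (-1) := by
  obtain ⟨f, t, -, hfv⟩ := exists_sl2 (W.isInternal X) (hLh hD) W_hbd hX
  exact ⟨f, t, (rop_iff.1 (rop_lower hD hX hB hfv)).kop⟩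

/-- An algebraic lowering operator gives the conjecture B. -/
lemma lefschetzB_of_low {D : X.Cycles} (hD : X.IsCyc 1 D) (hX : HardLefschetz W X D)
    {f : Module.End W.K (W.H X)} (t : TH132.A.Low W X D f) (hf : f ∈ KOp W X X (-1)) :
    LefschetzB W X D := by
  have hOA := (rop_opAlg (W := W) (X := X)).kspan
  apply lefschetzB_of_inj hD hX
  intro c _
  refine ⟨f ^ c, ?_, ?_⟩
  · rw [← mem_KS_iff]
    exact hOA.cast (hOA.pow (mem_KS_iff.2 hf) c) (by ring)
  · intro a ha h0
    apply f_pow_inj t _ h0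
    rw [wt, scal_apply _ _ ha]
    congr 1
    rw [node]
    push_cast; ring

/-- The conjecture B for products. -/
lemma b_prod {D : X.Cycles} {E : Y.Cycles} (hD : X.IsCyc 1 D) (hE : Y.IsCyc 1 E)
    (hX : HardLefschetz W X D) (hV : HardLefschetz W Y E) (hBX : LefschetzB W X D)
    (hBV : LefschetzB W Y E) :
    LefschetzB W (X.prod Y) (ops.pull (fst X Y) D + ops.pull (snd X Y) E) := by
  obtain ⟨f, tf, hf⟩ := exists_low_kop hD hX hBX
  obtain ⟨g, tg, hg⟩ := exists_low_kop hE hV hBV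
  refine lefschetzB_of_low (SmVar.IsCyc.add (ops.pull_mem _ hD) (ops.pull_mem _ hE))
    (hard_prod hD hE hX hV) (TH132.A.low_prod hE tf tg) ?_
  refine Submodule.add_mem _ ?_ ?_
  · exact KOp.cast (KOp.ext hf (KOp.id Y)) (by ring)
  · exact KOp.cast (KOp.ext (KOp.id X) hg) (by ring)

/-- the divisor on the powers -/
noncomputable def pwDiv (ops : CycleOps 𝒱) {X : 𝒱.Obj} (D : X.Cycles) : ∀ m, (pw X m).Cycles
  | 0 => D
  | m + 1 => ops.pull (fst X (pw X m)) D + ops.pull (snd X (pw X m)) (pwDiv ops D m)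

lemma pwDiv_cyc {D : X.Cycles} (hD : X.IsCyc 1 D) (m : ℕ) :
    (pw X m).IsCyc 1 (pwDiv ops D m) := by
  induction m with
  | zero => exact hD
  | succ m ih => exact SmVar.IsCyc.add (ops.pull_mem _ hD) (ops.pull_mem _ ih)

lemma pw_hard {D : X.Cycles} (hD : X.IsCyc 1 D) (hX : HardLefschetz W X D) (m : ℕ) :
    HardLefschetz W (pw X m) (pwDiv ops D m) := by
  induction m with
  | zero => exact hX
  | succ m ih => exact hard_prod hD (pwDiv_cyc hD m) hX ih

lemma pw_B {D : X.Cycles} (hD : X.IsCyc 1 D) (hX : HardLefschetz W X D)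
    (hB : LefschetzB W X D) (m : ℕ) : LefschetzB W (pw X m) (pwDiv ops D m) := by
  induction m with
  | zero => exact hB
  | succ m ih => exact b_prod hD (pwDiv_cyc hD m) hX (pw_hard hD hX m) hB ih

/-- The isomorphisms between the cohomology of complementary degrees. -/
structure Star (W : WeilCohomology.{u, v} ops) (V : 𝒱.Obj) (e : ℕ) : Prop where
  pr : proj (W.isInternal V) e ∈ KOp W V V 0
  ex : ∃ θ ∈ KOp W V V ((V.dim : ℤ) - e), ∃ η ∈ KOp W V V ((e : ℤ) - V.dim),
    ∀ x ∈ W.gr V e, η (θ x) = x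

lemma star_of_B {D : V.Cycles} (hD : V.IsCyc 1 D) (hHL : HardLefschetz W V D)
    (hB : LefschetzB W V D) {e : ℕ} (he : e ≤ 2 * V.dim) : Star W V e := by
  obtain ⟨Φ, hΦ, hLam⟩ := lefschetzB_iff_rop.1 hB
  have hOA := (rop_opAlg (W := W) (X := V)).kspan
  have hΦK : Φ ∈ KS (ROp W V) (-1) := Submodule.subset_span hΦ
  have hLK : LinearMap.mulLeft W.K (W.cl V D) ∈ KS (ROp W V) 1 :=
    Submodule.subset_span (rop_mulLeft hD)
  refine ⟨?_, ?_⟩
  · rw [← mem_KS_iff]
    exact Submodule.subset_span (rop_opAlg.proj_mem (W.isInternal V) W_hbd (rop_mulLeft hD) hHL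
      hΦ hLam e)
  · rcases le_total e V.dim with h | h
    · refine ⟨LinearMap.mulLeft W.K (W.cl V D) ^ (V.dim - e), ?_, Φ ^ (V.dim - e), ?_, ?_⟩
      · rw [← mem_KS_iff]
        exact hOA.cast (hOA.pow hLK _) (by push_cast [Nat.cast_sub h]; ring)
      · rw [← mem_KS_iff]
        exact hOA.cast (hOA.pow hΦK _) (by push_cast [Nat.cast_sub h]; ring)
      · intro x hx
        exact lam_pow_L_pow (hLh hD) W_hbd hHL hLam (by omega)
          (by rwa [show V.dim - (V.dim - e) = e by omega])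
    · refine ⟨Φ ^ (e - V.dim), ?_, LinearMap.mulLeft W.K (W.cl V D) ^ (e - V.dim), ?_, ?_⟩
      · rw [← mem_KS_iff]
        exact hOA.cast (hOA.pow hΦK _) (by push_cast [Nat.cast_sub h]; ring)
      · rw [← mem_KS_iff]
        exact hOA.cast (hOA.pow hLK _) (by push_cast [Nat.cast_sub h]; ring)
      · intro x hx
        obtain ⟨b, hb, hb'⟩ := (hHL (2 * V.dim - e) (by omega)).2 x
          (by rw [show 2 * V.dim - (2 * V.dim - e) = e by omega]; exact hx)
        rw [show V.dim - (2 * V.dim - e) = e - V.dim by omega] at hb'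
        rw [← hb', lam_pow_L_pow (hLh hD) W_hbd hHL hLam (by omega)
          (by rwa [show V.dim - (e - V.dim) = 2 * V.dim - e by omega])]

end Pool.Agent.V5helper86.GB
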