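import Mathlib

/-!
# Growth of weighted numbers of words: analysis
-/

open Finset

namespace Pool.Agent.V5helper86.GB

/-- The derivative at a minimum. -/
lemma deriv_zero {ι : Type*} [Fintype ι] (c x : ι → ℝ)
    (h : ∀ t : ℝ, ∑ a, c a ≤ ∑ a, c a * Real.exp (t * x a)) : ∑ a, c a * x a = 0 := by
  have h1 : HasDerivAt (fun t : ℝ => ∑ a, c a * Real.exp (t * x a)) (∑ a, c a * x a) 0 := by
    have h2 : ∀ a ∈ (univ : Finset ι), HasDerivAt (fun t : ℝ => c a * Real.exp (t * x a))
        (c a * x a) 0 := by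
      intro a _
      have h3 : HasDerivAt (fun t : ℝ => t * x a) (x a) 0 := by
        simpa using (hasDerivAt_id (0 : ℝ)).mul_const (x a)
      have h4 := (h3.exp).const_mul (c a)
      simpa using h4
    exact HasDerivAt.fun_sum h2
  have h2 : IsLocalMin (fun t : ℝ => ∑ a, c a * Real.exp (t * x a)) 0 := by
    refine Filter.Eventually.of_forall fun t => ?_
    have h3 := h t
    simpa using h3
  exact h2.hasDerivAt_eq_zero h1

/-- Exponential tilting. -/
lemma tilt {ι : Type*} [Fintype ι] (c x : ι → ℝ) (hc : ∀ a, 0 ≤ c a) (m : ℕ)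
    (t : ℝ) : ∑ I ∈ univ.filter (fun I : Fin m → ι => ∑ s, x (I s) = 0), ∏ s, c (I s) ≤
      (∑ a, c a * Real.exp (t * x a)) ^ m := by
  classical
  rw [Fintype.sum_pow]
  calc ∑ I ∈ univ.filter (fun I : Fin m → ι => ∑ s, x (I s) = 0), ∏ s, c (I s)
      = ∑ I ∈ univ.filter (fun I : Fin m → ι => ∑ s, x (I s) = 0),
          ∏ s, (c (I s) * Real.exp (t * x (I s))) := by
        refine Finset.sum_congr rfl fun I hI => ?_
        rw [Finset.mem_filter] at hI
        rw [Finset.prod_mul_distrib, ← Real.exp_sum, ← Finset.mul_sum, hI.2, mul_zero,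
          Real.exp_zero, mul_one]
    _ ≤ ∑ I : Fin m → ι, ∏ s, (c (I s) * Real.exp (t * x (I s))) := by
        refine Finset.sum_le_sum_of_subset_of_nonneg (Finset.filter_subset _ _) fun I _ _ => ?_
        exact Finset.prod_nonneg fun s _ => mul_nonneg (hc _) (Real.exp_pos _).le

/-- No nonzero polynomial of degree at most `N` with rational coefficients vanishes on `S`. -/
def Separating (N : ℕ) (S : Set ℝ) : Prop :=
  ∀ p : Polynomial ℚ, p.natDegree ≤ N → (∀ u ∈ S, Polynomial.aeval u p = 0) → p = 0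

lemma separating_of_infinite {S : Set ℝ} (hS : S.Infinite) (N : ℕ) : Separating N S := by
  intro p _ h
  have h1 : p.map (algebraMap ℚ ℝ) = 0 := by
    apply Polynomial.eq_zero_of_infinite_isRoot
    refine hS.mono fun u hu => ?_
    change (p.map (algebraMap ℚ ℝ)).eval u = 0
    rw [Polynomial.eval_map_algebraMap]
    exact h u hu
  exact (Polynomial.map_eq_zero_iff (algebraMap ℚ ℝ).injective).1 h1

lemma separating_of_transcendental {u : ℝ} (hu : Transcendental ℚ u) (N : ℕ) :
    Separating N {u} := fun p _ h => by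
  by_contra hp
  exact hu ⟨p, hp, h u rfl⟩

/-- The coefficients of a polynomial with sufficiently many zeros. -/
lemma coeff_zero {ι : Type*} [Fintype ι] (x : ι → ℚ) (deg : ι → ℕ) {N : ℕ} {S : Set ℝ}
    (hS : Separating N S) (hdeg : ∀ a, deg a ≤ N)
    (h : ∀ u ∈ S, ∑ a, u ^ deg a * (x a : ℝ) = 0) (i : ℕ) :
    ∑ a ∈ univ.filter (fun a => deg a = i), x a = 0 := by
  classical
  set p : Polynomial ℚ := ∑ a, Polynomial.monomial (deg a) (x a) with hp
  have h0 : p = 0 := by
    refine hS p ?_ fun u hu => ?_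
    · rw [hp]
      exact Polynomial.natDegree_sum_le_of_forall_le _ _ fun a _ =>
        (Polynomial.natDegree_monomial_le _).trans (hdeg a)
    · rw [hp, map_sum, ← h u hu]
      refine Finset.sum_congr rfl fun a _ => ?_
      rw [Polynomial.aeval_monomial, mul_comm]
      rfl
  have h1 := congrArg (fun q => Polynomial.coeff q i) h0
  rw [hp] at h1
  simp only [Polynomial.finsetSum_coeff, Polynomial.coeff_monomial, Polynomial.coeff_zero] at h1
  rw [Finset.sum_filter]
  exact h1

/-- **The first moments vanish if the growth is maximal.** -/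
theorem moments_zero {ι : Type*} [Fintype ι] (deg : ι → ℕ) (x : ι → ℚ) {N : ℕ} {S : Set ℝ}
    (hS : Separating N S) (hdeg : ∀ a, deg a ≤ N) (hpos : ∀ u ∈ S, 0 < u)
    (h : ∀ u ∈ S, ∀ a : ℝ, 0 ≤ a → a < ∑ i, u ^ deg i → ∃ n : ℕ, a ^ (n + 1) ≤
      ∑ I ∈ univ.filter (fun I : Fin (n + 1) → ι => ∑ s, (x (I s) : ℝ) = 0),
        ∏ s, u ^ (deg (I s)))
    (i : ℕ) : ∑ a ∈ univ.filter (fun a => deg a = i), x a = 0 := by
  refine coeff_zero x deg hS hdeg (fun u hu => deriv_zero _ _ fun t => ?_) i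
  have hu0 := hpos u hu
  set G := ∑ a, u ^ deg a * Real.exp (t * (x a : ℝ)) with hG
  have hG0 : 0 ≤ G := Finset.sum_nonneg fun a _ =>
    mul_nonneg (pow_nonneg hu0.le _) (Real.exp_pos _).le
  by_contra hcon
  push Not at hcon
  obtain ⟨a, ha1, ha2⟩ := exists_between hcon
  obtain ⟨n, hn⟩ := h u hu a (hG0.trans ha1.le) ha2
  have h1 := tilt (fun a => u ^ deg a) (fun a => (x a : ℝ)) (fun a => pow_nonneg hu0.le _)
    (n + 1) t
  have h2 := hn.trans h1
  have h3 : a ≤ G := le_of_pow_le_pow_left₀ (Nat.succ_ne_zero n) hG0 h2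
  linarith

/-- Summation of the numbers of words over the total degrees. -/
lemma sum_words_le {ι : Type*} [Fintype ι] (deg : ι → ℕ) (x : ι → ℝ) {u : ℝ} (hu : 0 < u)
    (m d : ℕ) (r : ℕ → ℕ) (hr : ∀ j ≤ d, r j ≤ (univ.filter fun I : Fin m → ι =>
      ∑ s, deg (I s) = 2 * j ∧ ∑ s, x (I s) = 0).card) :
    ∑ j ∈ range (d + 1), (r j : ℝ) * u ^ (2 * j) ≤
      ∑ I ∈ univ.filter (fun I : Fin m → ι => ∑ s, x (I s) = 0), ∏ s, u ^ (deg (I s)) := by
  classical
  calc ∑ j ∈ range (d + 1), (r j : ℝ) * u ^ (2 * j)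
      ≤ ∑ j ∈ range (d + 1), ∑ I ∈ univ.filter (fun I : Fin m → ι =>
          ∑ s, deg (I s) = 2 * j ∧ ∑ s, x (I s) = 0), u ^ (∑ s, deg (I s)) := by
        refine Finset.sum_le_sum fun j hj => ?_
        rw [Finset.mem_range] at hj
        have h1 : ∑ I ∈ univ.filter (fun I : Fin m → ι =>
            ∑ s, deg (I s) = 2 * j ∧ ∑ s, x (I s) = 0), u ^ (∑ s, deg (I s)) =
            ((univ.filter (fun I : Fin m → ι =>
            ∑ s, deg (I s) = 2 * j ∧ ∑ s, x (I s) = 0)).card : ℝ) * u ^ (2 * j) := by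
          rw [← nsmul_eq_mul, ← Finset.sum_const]
          refine Finset.sum_congr rfl fun I hI => ?_
          rw [Finset.mem_filter] at hI
          rw [hI.2.1]
        rw [h1]
        exact mul_le_mul_of_nonneg_right (by exact_mod_cast hr j (by omega))
          (pow_nonneg hu.le _)
    _ = ∑ I ∈ (range (d + 1)).biUnion (fun j => univ.filter (fun I : Fin m → ι =>
          ∑ s, deg (I s) = 2 * j ∧ ∑ s, x (I s) = 0)), u ^ (∑ s, deg (I s)) := by
        rw [Finset.sum_biUnion]
        intro j _ j' _ hne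
        rw [Function.onFun, Finset.disjoint_left]
        intro I h1 h2
        rw [Finset.mem_filter] at h1 h2
        have := h1.2.1.symm.trans h2.2.1
        omega
    _ ≤ ∑ I ∈ univ.filter (fun I : Fin m → ι => ∑ s, x (I s) = 0), u ^ (∑ s, deg (I s)) := by
        refine Finset.sum_le_sum_of_subset_of_nonneg (fun I hI => ?_) fun I _ _ =>
          pow_nonneg hu.le _
        rw [Finset.mem_biUnion] at hI
        obtain ⟨j, _, hj⟩ := hI
        rw [Finset.mem_filter] at hj ⊢
        exact ⟨hj.1, hj.2.2⟩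
    _ = ∑ I ∈ univ.filter (fun I : Fin m → ι => ∑ s, x (I s) = 0), ∏ s, u ^ (deg (I s)) := by
        refine Finset.sum_congr rfl fun I _ => ?_
        rw [Finset.prod_pow_eq_pow_sum]

end Pool.Agent.V5helper86.GB
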