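import Pool.Agent.V5helper86.GB.Cnt
import Pool.Agent.V5helper86.GB.An
import Pool.Agent.Y163.Idx

/-!
# Derivations which act by scalars on the classes of cycles, and the growth of the ranks
-/

open CategoryTheory AlgebraicGeometry TensorProduct Function Module

universe u v w w'

set_option linter.unusedSectionVars false

namespace Pool.Agent.V5helper86.GB

open Pool.Agent.H914 Pool.Agent.H914.VarClass Pool.Agent.H914.VarClass.Obj
  Pool.Agent.H914.WeilCohomology Pool.Agent.R908 Pool.Agent.H447 Pool.Agent.N180.Cf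
  Pool.Agent.W534 Pool.Agent.V5helper85.AB

variable {k : Type u} [Field k] {𝒱 : VarClass k} {ops : CycleOps 𝒱}
  {W : WeilCohomology.{u, v} ops} {X Y Z V P : 𝒱.Obj}

/-- The derivation given by `E` acts on the classes of cycles on the powers, modulo numerical
equivalence, as `κ` times the degree. -/
def Acts (W : WeilCohomology.{u, v} ops) {X : 𝒱.Obj} (P : 𝒱.Obj) (κ : ℚ)
    (E : W.H X →ₗ[W.K] W.H X) : Prop :=
  ∀ m j l : ℕ, j + l = m * X.dim → ∀ α ∈ spanCycles W (pX X P m) (j : ℤ),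
    ∀ β ∈ spanCycles W (pX X P m) (l : ℤ), W.tr _ (β * dm W P E m α) =
      ((κ * (2 * (j : ℚ) - m * (X.dim : ℚ)) : ℚ) : W.K) * W.tr _ (β * α)

lemma acts_hop (hP : IsPoint W P) : Acts W P 1 (hop W X) := by
  intro m j l _ α hα β _
  rw [dm_hop hP, hop_span hα, mul_smul_comm, map_smul, smul_eq_mul, dim_pX hP]
  congr 1
  push_cast
  ring

/-- An algebraic operator with the same super traces acts in the same way. -/
lemma Acts.of_repr (hP : IsPoint W P) {κ : ℚ} {E μ : W.H X →ₗ[W.K] W.H X}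
    (hE : IsHom (W.gr X) 0 E) (hμ : μ ∈ KOp W X X 0)
    (h : ∀ a ∈ KOp W X X 0, str W X (a ∘ₗ E) = str W X (a ∘ₗ μ)) (hact : Acts W P κ E) :
    Acts W P κ μ := by
  intro m j l hjl α hα β hβ
  have hij : (j : ℤ) + l = (pX X P m).dim := by
    rw [dim_pX hP]
    exact_mod_cast hjl
  obtain ⟨z, hz, h1⟩ := exists_z (P := P) hα hβ hij
  rw [← h1 μ (KOp.isHom hμ), ← h z hz, h1 E hE]
  exact hact m j l hjl α hα β hβ

/-- The form `(a, b) ↦ str (a b)`. -/
noncomputable def strForm (W : WeilCohomology.{u, v} ops) (X : 𝒱.Obj) :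
    KOp W X X 0 →ₗ[W.K] Module.Dual W.K (KOp W X X 0) where
  toFun a :=
    { toFun := fun b => str W X ((a : W.H X →ₗ[W.K] W.H X) ∘ₗ (b : W.H X →ₗ[W.K] W.H X))
      map_add' := fun b c => by
        rw [Submodule.coe_add, LinearMap.comp_add, str_add]
      map_smul' := fun r b => by
        rw [Submodule.coe_smul, LinearMap.comp_smul, str_smul]
        rfl }
  map_add' a b := by
    apply LinearMap.ext
    intro c
    change str W X (((a + b : KOp W X X 0) : W.H X →ₗ[W.K] W.H X) ∘ₗ _) = str W X _ + str W X _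
    rw [Submodule.coe_add, LinearMap.add_comp, str_add]
  map_smul' r a := by
    apply LinearMap.ext
    intro c
    change str W X (((r • a : KOp W X X 0) : W.H X →ₗ[W.K] W.H X) ∘ₗ _) = r * str W X _
    rw [Submodule.coe_smul, LinearMap.smul_comp, str_smul]

/-- Super traces are represented by algebraic operators. -/
lemma exists_mu {E : W.H X →ₗ[W.K] W.H X}
    (hE : ∀ a ∈ KOp W X X 0, (∀ b ∈ KOp W X X 0, str W X (a ∘ₗ b) = 0) →
      str W X (a ∘ₗ E) = 0) :
    ∃ μ ∈ KOp W X X 0, ∀ a ∈ KOp W X X 0, str W X (a ∘ₗ E) = str W X (a ∘ₗ μ) := by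
  let θ : Module.Dual W.K (KOp W X X 0) :=
    { toFun := fun a => str W X ((a : W.H X →ₗ[W.K] W.H X) ∘ₗ E)
      map_add' := fun b c => by
        rw [Submodule.coe_add, LinearMap.add_comp, str_add]
      map_smul' := fun r b => by
        rw [Submodule.coe_smul, LinearMap.smul_comp, str_smul]
        rfl }
  have h0 : ∀ a : KOp W X X 0, strForm W X a = 0 → θ a = 0 := by
    rintro ⟨a, ha⟩ h
    refine hE a ha fun b hb => ?_
    exact congrArg (fun F : Module.Dual W.K (KOp W X X 0) => F ⟨b, hb⟩) h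
  have hfin : Module.Finite W.K (KOp W X X 0) := inferInstance
  obtain ⟨⟨μ, hμ⟩, h⟩ := exists_repr (K := W.K) (A := KOp W X X 0) (strForm W X) θ h0
  exact ⟨μ, hμ, fun a ha => h ⟨a, ha⟩⟩

/-! ### Homogeneous bases -/

section Basis

variable {μ : Module.End W.K (W.H X)} {ι : Type v} [Fintype ι] (D : SData W μ ι)

lemma SData.deg_lt (a : ι) : D.deg a < 2 * X.dim + 1 := by
  by_contra hcon
  have h1 := D.mem a
  rw [W.gr_eq_bot X _ (by omega), Submodule.mem_bot] at h1
  exact D.b.ne_zero a h1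

lemma SData.card_deg (i : ℕ) : (Finset.univ.filter fun a => D.deg a = i).card = W.betti X i := by
  have h1 := Pool.Agent.H914.trace_proj (W.isInternal X) i
  have h2 := trace_diag D.b (f := proj (W.isInternal X) i)
    (c := fun a => if D.deg a = i then 1 else 0) (fun a => by
      split_ifs with h
      · rw [one_smul]
        exact proj_same _ (h ▸ D.mem a)
      · rw [zero_smul]
        exact proj_ne _ (D.mem a) h)
  rw [h1, Finset.sum_boole] at h2
  exact_mod_cast h2.symm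

lemma SData.sum_pow (u : ℝ) : ∑ a, u ^ D.deg a = poincare W X u := by
  rw [poincare, ← Finset.sum_fiberwise_of_maps_to (s := Finset.univ)
    (t := Finset.range (2 * X.dim + 1)) (g := D.deg)
    (fun a _ => Finset.mem_range.2 (D.deg_lt a))]
  refine Finset.sum_congr rfl fun i _ => ?_
  rw [← D.card_deg i, ← nsmul_eq_mul, ← Finset.sum_const]
  refine Finset.sum_congr rfl fun a ha => ?_
  rw [(Finset.mem_filter.1 ha).2]

end Basis

/-! ### Transfer of ranks -/

lemma kRank_le_of_tr (θ : Z ⟶ V) {c : W.K} (hc : c ≠ 0)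
    (h : ∀ b, W.tr Z (W.map θ b) = c * W.tr V b) (j l : ℕ) :
    kRank W V j l ≤ kRank W Z j l := by
  have h3 : pair W V j l = (c⁻¹ • (Pool.Agent.Y163.pullS W θ l).dualMap) ∘ₗ pair W Z j l ∘ₗ
      Pool.Agent.Y163.pullS W θ j := by
    apply LinearMap.ext
    intro a
    apply LinearMap.ext
    intro b
    have e1 : ((c⁻¹ • (Pool.Agent.Y163.pullS W θ l).dualMap) ∘ₗ pair W Z j l ∘ₗ
        Pool.Agent.Y163.pullS W θ j) a b =
        c⁻¹ * W.tr Z (W.map θ (a : W.H V) * W.map θ (b : W.H V)) := rfl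
    rw [e1, ← map_mul, h, pair_apply, ← mul_assoc, inv_mul_cancel₀ hc, one_mul]
  rw [kRank, kRank, h3]
  exact Pool.Agent.Y163.finrank_range_comp_comp_le _ _ _

/-- The morphism which forgets the point. -/
noncomputable def fgt (X P : 𝒱.Obj) : ∀ n, pX X P (n + 1) ⟶ Pool.Agent.Y163.pw X n
  | 0 => fst X P
  | n + 1 => Obj.lift (fst X (pX X P (n + 1))) (snd X (pX X P (n + 1)) ≫ fgt X P n)

lemma tr_lift (θ : Z ⟶ V) {c : W.K} (h : ∀ b, W.tr Z (W.map θ b) = c * W.tr V b)
    (b : W.H (X.prod V)) : W.tr (X.prod Z) (W.map (Obj.lift (fst X Z) (snd X Z ≫ θ)) b) =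
      c * W.tr (X.prod V) b := by
  refine W.kunneth_induction (p := fun b => W.tr (X.prod Z)
    (W.map (Obj.lift (fst X Z) (snd X Z ≫ θ)) b) = c * W.tr (X.prod V) b) ?_ ?_ b
  · intro a b ha hb
    rw [map_add, map_add, ha, hb, map_add, mul_add]
  · intro i j a _ b _
    have e1 : Obj.lift (fst X Z) (snd X Z ≫ θ) ≫ fst X V = fst X Z := Obj.lift_fst _ _
    have e2 : Obj.lift (fst X Z) (snd X Z ≫ θ) ≫ snd X V = snd X Z ≫ θ := Obj.lift_snd _ _
    rw [map_mul (W.map (Obj.lift (fst X Z) (snd X Z ≫ θ))), ← W.map_comp, ← W.map_comp, e1, e2,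
      W.map_comp, W.tr_prod, W.tr_prod, h]
    ring

lemma tr_fgt : ∀ (n : ℕ) (b : W.H (Pool.Agent.Y163.pw X n)),
    W.tr _ (W.map (fgt X P n) b) = W.tr P 1 * W.tr _ b
  | 0, b => by
    have h1 := W.tr_prod (X := X) (Y := P) b 1
    rw [map_one, mul_one, mul_comm] at h1
    exact h1
  | n + 1, b => tr_lift (fgt X P n) (tr_fgt n) b

lemma numRank_pw_le (hP : IsPoint W P) {n j l : ℕ} (hjl : j + l = (n + 1) * X.dim) :
    numRank ops (Pool.Agent.Y163.pw X n) j ≤ kRank W (pX X P (n + 1)) j l := by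
  have h1 : j ≤ (Pool.Agent.Y163.pw X n).dim := by
    rw [Pool.Agent.Y163.dim_pw]
    omega
  rw [numRank_eq (W := W) h1]
  have h2 : (Pool.Agent.Y163.pw X n).dim - j = l := by
    rw [Pool.Agent.Y163.dim_pw]
    omega
  rw [h2]
  exact kRank_le_of_tr (fgt X P n) hP.tr_ne (tr_fgt n) j l

/-! ### The first moments -/

/-- **Maximal growth determines the eigenvalues in the average.** -/
theorem moments (hP : IsPoint W P) {μ : Module.End W.K (W.H X)} {ι : Type v} [Fintype ι]
    (D : SData W μ ι) {κ : ℚ} (hact : Acts W P κ μ) {ψ : W.K →+ ℚ}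
    (hψ : ∀ q : ℚ, ψ (q : W.K) = q) {S : Set ℝ} (hS : Separating (2 * X.dim) S)
    (hpos : ∀ u ∈ S, 0 < u) (hgrow : ∀ u ∈ S, MaxGrowth W X u) (i : ℕ) :
    ∑ a ∈ Finset.univ.filter (fun a => D.deg a = i),
      (ψ (D.ev a) - κ * ((D.deg a : ℚ) - X.dim)) = 0 := by
  set x : ι → ℚ := fun a => ψ (D.ev a) - κ * ((D.deg a : ℚ) - X.dim) with hx
  refine moments_zero D.deg x hS (fun a => by have := D.deg_lt a; omega) hpos
    (fun u hu a ha0 ha => ?_) i
  rw [D.sum_pow u] at ha
  obtain ⟨n, -, hn⟩ := hgrow u hu a ha0 ha 0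
  refine ⟨n, hn.trans ?_⟩
  rw [rankPoly]
  refine sum_words_le D.deg (fun a => (x a : ℝ)) (hpos u hu) (n + 1) _
    (numRank ops (Pool.Agent.Y163.pw X n)) ?_
  intro j hj
  rw [Pool.Agent.Y163.dim_pw] at hj
  obtain ⟨l, hl⟩ := Nat.exists_eq_add_of_le hj
  refine (numRank_pw_le (W := W) hP (l := l) (by omega)).trans ?_
  refine kRank_le_words D hP (x := fun a => (x a : ℝ)) (fun I hI1 hI2 => ?_)
    (hact (n + 1) j l (by omega))
  have h1 := congrArg ψ hI2
  rw [map_sum, hψ] at h1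
  have h2 : ∑ s, x (I s) = 0 := by
    rw [hx]
    simp only [Finset.sum_sub_distrib, ← Finset.mul_sum]
    rw [h1, ← Nat.cast_sum, hI1, Finset.sum_const, Finset.card_univ, Fintype.card_fin,
      nsmul_eq_mul]
    push_cast
    ring
  rw [← Rat.cast_sum, h2, Rat.cast_zero]

end Pool.Agent.V5helper86.GB
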