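import Pool.Agent.V5helper86.GB.Geo

/-!
# The number of words
-/

open CategoryTheory AlgebraicGeometry TensorProduct Function Module

universe u v w w'

set_option linter.unusedSectionVars false

namespace Pool.Agent.V5helper86.GB

open Pool.Agent.H914 Pool.Agent.H914.VarClass Pool.Agent.H914.VarClass.Obj
  Pool.Agent.H914.WeilCohomology Pool.Agent.R908 Pool.Agent.H447 Pool.Agent.N180.Cf
  Pool.Agent.W534 Pool.Agent.V5helper85.AB

variable {k : Type u} [Field k] {𝒱 : VarClass k} {ops : CycleOps 𝒱}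
  {W : WeilCohomology.{u, v} ops} {X Y Z V P : 𝒱.Obj}

/-! ### Semisimple and nilpotent parts -/

/-- The decomposition of an algebraic operator in a semisimple and a nilpotent part, with a
homogeneous basis of eigenvectors. -/
structure SData (W : WeilCohomology.{u, v} ops) {X : 𝒱.Obj} (μ : Module.End W.K (W.H X))
    (ι : Type v) where
  s : Module.End W.K (W.H X)
  ν : Module.End W.K (W.H X)
  hs : s ∈ KOp W X X 0
  hν : ν ∈ KOp W X X 0
  sum : μ = s + ν
  comm : Commute s ν
  nil : IsNilpotent ν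
  b : Basis ι W.K (W.H X)
  deg : ι → ℕ
  ev : ι → W.K
  mem : ∀ a, b a ∈ W.gr X (deg a)
  eig : ∀ a, s (b a) = ev a • b a

lemma exists_sdata [IsAlgClosed W.K] {μ : Module.End W.K (W.H X)} (hμ : μ ∈ KOp W X X 0) :
    ∃ (ι : Type v) (_ : Fintype ι), Nonempty (SData W μ ι) := by
  classical
  obtain ⟨n, hn, s, hs, hnil, hss, hsum⟩ := Module.End.exists_isNilpotent_isSemisimple (K := W.K)
    (f := μ)
  have hle : Algebra.adjoin W.K {μ} ≤ Pool.Agent.Y163.KAlg W X := by
    rw [Algebra.adjoin_le_iff, Set.singleton_subset_iff]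
    exact hμ
  have hsA : s ∈ KOp W X X 0 := hle hs
  have hnA : n ∈ KOp W X X 0 := hle hn
  have hcomm : Commute s n := by
    rw [Algebra.adjoin_singleton_eq_range_aeval] at hn hs
    obtain ⟨p, rfl⟩ := hn
    obtain ⟨q, rfl⟩ := hs
    change Polynomial.aeval μ q * Polynomial.aeval μ p = Polynomial.aeval μ p * Polynomial.aeval μ q
    rw [← map_mul, ← map_mul, mul_comm]
  have hd := Pool.Agent.Y163.deg0_of_mem hsA
  have h1 : ∀ i, ∃ (ι : Type v) (b : Basis ι W.K (W.gr X i)) (c : ι → W.K),
      ∀ a, (s.restrict (hd i)) (b a) = c a • b a := by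
    intro i
    apply exists_eigenbasis
    apply iSup_eigenspace
    exact hss.restrict (p := W.gr X i) (hd i)
  choose ι b c hb using h1
  set B := (W.isInternal X).collectedBasis b with hB
  have hfin : Finite (Σ i, ι i) := Module.Finite.finite_basis B
  refine ⟨Σ i, ι i, Fintype.ofFinite _, ⟨⟨s, n, hsA, hnA, by rw [add_comm]; exact hsum, hcomm,
    hnil, B, fun a => a.1, fun a => c a.1 a.2, fun a => ?_, fun a => ?_⟩⟩⟩
  · exact (W.isInternal X).collectedBasis_mem b a
  · have h2 : B a = ((b a.1 a.2 : W.gr X a.1) : W.H X) := by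
      rw [hB, DirectSum.IsInternal.collectedBasis_coe]
    rw [h2]
    exact congrArg Subtype.val (hb a.1 a.2)

/-! ### Words -/

lemma exists_words {ι : Type v} (b : Basis ι W.K (W.H X)) (hP : IsPoint W P) : ∀ m,
    ∃ B : Basis (Fin m → ι) W.K (W.H (pX X P m)), ∀ I, B I = box W m (fun s => b (I s)) 1
  | 0 => by
    have h1 : LinearIndependent W.K (fun _ : Fin 0 → ι => (1 : W.H P)) := by
      rw [linearIndependent_unique_iff]
      exact hP.one_ne
    have h2 : ⊤ ≤ Submodule.span W.K (Set.range fun _ : Fin 0 → ι => (1 : W.H P)) := by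
      intro y _
      obtain ⟨c, rfl⟩ := hP.exists_smul y
      exact Submodule.smul_mem _ _ (Submodule.subset_span ⟨default, rfl⟩)
    refine ⟨Basis.mk h1 h2, fun I => ?_⟩
    rw [Basis.mk_apply]
    rfl
  | m + 1 => by
    obtain ⟨B, hB⟩ := exists_words b hP m
    refine ⟨((b.tensorProduct B).map (kappa W X (pX X P m))).reindex
      (Fin.consEquiv (fun _ => ι)), fun I => ?_⟩
    refine (Basis.reindex_apply ((b.tensorProduct B).map (kappa W X (pX X P m)))
      (Fin.consEquiv (fun _ => ι)) I).trans ?_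
    rw [Basis.map_apply, Basis.tensorProduct_apply', kappa_tmul, hB]
    rfl

lemma box_gr (hP : IsPoint W P) : ∀ (m : ℕ) (x : Fin m → W.H X) (d : Fin m → ℕ),
    (∀ s, x s ∈ W.gr X (d s)) → box W m x (1 : W.H P) ∈ W.gr (pX X P m) (∑ s, d s)
  | 0, x, d, _ => by
    rw [Fin.sum_univ_zero]
    exact W.one_mem P
  | m + 1, x, d, h => by
    rw [Fin.sum_univ_succ]
    exact W.mul_mem (W.map_mem (fst X (pX X P m)) (h 0)) (W.map_mem (snd X (pX X P m))
      (box_gr hP m (fun s => x s.succ) (fun s => d s.succ) fun s => h _))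

lemma dm_box_eig {E : W.H X →ₗ[W.K] W.H X} : ∀ (m : ℕ) (x : Fin m → W.H X) (c : Fin m → W.K),
    (∀ s, E (x s) = c s • x s) →
      dm W P E m (box W m x (1 : W.H P)) = (∑ s, c s) • box W m x (1 : W.H P)
  | 0, x, c, _ => by
    rw [Fin.sum_univ_zero, zero_smul]
    rfl
  | m + 1, x, c, h => by
    rw [Fin.sum_univ_succ]
    change (extHom W E LinearMap.id + extHom W LinearMap.id (dm W P E m) :
        W.H (X.prod (pX X P m)) →ₗ[W.K] W.H (X.prod (pX X P m)))
      (W.map (fst X (pX X P m)) (x 0) * W.map (snd X (pX X P m))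
        (box W m (fun s => x s.succ) 1)) = (c 0 + ∑ s : Fin m, c s.succ) •
      (W.map (fst X (pX X P m)) (x 0) * W.map (snd X (pX X P m))
        (box W m (fun s => x s.succ) 1))
    rw [LinearMap.add_apply, extHom_tmul, extHom_tmul, LinearMap.id_apply, LinearMap.id_apply,
      h 0, dm_box_eig m (fun s => x s.succ) (fun s => c s.succ) (fun s => h _), map_smul,
      map_smul, smul_mul_assoc, mul_smul_comm, add_smul]

/-! ### Commuting derivations -/

lemma ext_mul (φ φ' : Module.End W.K (W.H X)) (ψ ψ' : Module.End W.K (W.H Y)) :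
    (extHom W φ ψ : Module.End W.K (W.H (X.prod Y))) * extHom W φ' ψ' =
      extHom W (φ * φ') (ψ * ψ') := extHom_comp φ' ψ' φ ψ

lemma ext_pow_left (φ : Module.End W.K (W.H X)) (n : ℕ) :
    (extHom W φ (LinearMap.id : W.H Y →ₗ[W.K] W.H Y) : Module.End W.K (W.H (X.prod Y))) ^ n =
      extHom W (φ ^ n) LinearMap.id := by
  induction n with
  | zero => exact extHom_id.symm
  | succ n ih =>
    rw [pow_succ, ih, ext_mul, pow_succ]
    rfl

lemma ext_pow_right (ψ : Module.End W.K (W.H Y)) (n : ℕ) :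
    (extHom W (LinearMap.id : W.H X →ₗ[W.K] W.H X) ψ : Module.End W.K (W.H (X.prod Y))) ^ n =
      extHom W LinearMap.id (ψ ^ n) := by
  induction n with
  | zero => exact extHom_id.symm
  | succ n ih =>
    rw [pow_succ, ih, ext_mul, pow_succ]
    rfl

lemma ext_comm (φ : Module.End W.K (W.H X)) (ψ : Module.End W.K (W.H Y)) :
    Commute (extHom W φ (LinearMap.id : W.H Y →ₗ[W.K] W.H Y) :
      Module.End W.K (W.H (X.prod Y))) (extHom W LinearMap.id ψ) := by
  change extHom W φ LinearMap.id ∘ₗ extHom W LinearMap.id ψ =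
    extHom W LinearMap.id ψ ∘ₗ extHom W φ LinearMap.id
  rw [extHom_comp, extHom_comp]
  rfl

lemma dm_nil {ν : Module.End W.K (W.H X)} (hν : IsNilpotent ν) : ∀ m,
    IsNilpotent (dm W P ν m : Module.End W.K (W.H (pX X P m)))
  | 0 => ⟨1, by rw [pow_one]; rfl⟩
  | m + 1 => by
    obtain ⟨n, hn⟩ := hν
    obtain ⟨n', hn'⟩ := dm_nil ⟨n, hn⟩ m
    have h1 : IsNilpotent (extHom W ν LinearMap.id : Module.End W.K (W.H (X.prod (pX X P m)))) :=
      ⟨n, by rw [ext_pow_left, hn]; exact extHom_zero_left _⟩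
    have h2 : IsNilpotent (extHom W LinearMap.id (dm W P ν m) :
        Module.End W.K (W.H (X.prod (pX X P m)))) :=
      ⟨n', by rw [ext_pow_right, hn']; exact extHom_zero_right _⟩
    exact (ext_comm ν (dm W P ν m)).isNilpotent_add h1 h2

lemma dm_comm {s ν : Module.End W.K (W.H X)} (h : Commute s ν) : ∀ m,
    Commute (dm W P s m : Module.End W.K (W.H (pX X P m))) (dm W P ν m)
  | 0 => Commute.zero_left _
  | m + 1 => by
    have ih := dm_comm h m
    have h1 : Commute (extHom W s LinearMap.id : Module.End W.K (W.H (X.prod (pX X P m))))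
        (extHom W ν LinearMap.id) := by
      change extHom W s LinearMap.id ∘ₗ extHom W ν LinearMap.id =
        extHom W ν LinearMap.id ∘ₗ extHom W s LinearMap.id
      rw [extHom_comp, extHom_comp]
      exact congrArg (fun F => extHom W F LinearMap.id) h.eq
    have h2 : Commute (extHom W LinearMap.id (dm W P s m) :
        Module.End W.K (W.H (X.prod (pX X P m)))) (extHom W LinearMap.id (dm W P ν m)) := by
      change extHom W LinearMap.id (dm W P s m) ∘ₗ extHom W LinearMap.id (dm W P ν m) =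
        extHom W LinearMap.id (dm W P ν m) ∘ₗ extHom W LinearMap.id (dm W P s m)
      rw [extHom_comp, extHom_comp]
      exact congrArg (fun F => extHom W LinearMap.id F) ih.eq
    exact ((h1.add_right (ext_comm s (dm W P ν m))).add_left
      ((ext_comm ν (dm W P s m)).symm.add_right h2))

/-! ### The number of classes -/

/-- **The rank of the intersection form is bounded by a number of words.** -/
theorem kRank_le_words {μ : Module.End W.K (W.H X)} {ι : Type v} [Fintype ι]
    (D : SData W μ ι) (hP : IsPoint W P) {m j l : ℕ} {c : W.K} {x : ι → ℝ}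
    (hx0 : ∀ I : Fin m → ι, ∑ s, D.deg (I s) = 2 * j → ∑ s, D.ev (I s) = c → ∑ s, x (I s) = 0)
    (h : ∀ α ∈ spanCycles W (pX X P m) (j : ℤ), ∀ β ∈ spanCycles W (pX X P m) (l : ℤ),
      W.tr _ (β * dm W P μ m α) = c * W.tr _ (β * α)) :
    kRank W (pX X P m) j l ≤ (Finset.univ.filter fun I : Fin m → ι =>
      ∑ s, D.deg (I s) = 2 * j ∧ ∑ s, x (I s) = 0).card := by
  obtain ⟨B, hB⟩ := exists_words D.b hP m
  set s' : Module.End W.K (W.H (pX X P m)) := dm W P D.s m with hs'
  set ν' : Module.End W.K (W.H (pX X P m)) := dm W P D.ν m with hν'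
  have hBs : ∀ I, s' (B I) = (∑ t, D.ev (I t)) • B I := by
    intro I
    rw [hB]
    exact dm_box_eig m _ _ fun t => D.eig (I t)
  have hBg : ∀ I, B I ∈ W.gr (pX X P m) (∑ t, D.deg (I t)) := by
    intro I
    rw [hB]
    exact box_gr hP m _ _ fun t => D.mem (I t)
  have htop : ⨆ c, s'.eigenspace c = ⊤ := by
    rw [eq_top_iff, ← B.span_eq, Submodule.span_le]
    rintro _ ⟨I, rfl⟩
    exact Submodule.mem_iSup_of_mem _ (Module.End.mem_eigenspace_iff.2 (hBs I))
  let N : Submodule W.K (W.H (pX X P m)) :=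
    { carrier := {x | ∀ β ∈ spanCycles W (pX X P m) (l : ℤ), W.tr _ (β * x) = 0}
      zero_mem' := fun β _ => by rw [mul_zero, map_zero]
      add_mem' := fun {a b} ha hb β hβ => by rw [mul_add, map_add, ha β hβ, hb β hβ, add_zero]
      smul_mem' := fun r a ha β hβ => by rw [mul_smul_comm, map_smul, ha β hβ, smul_zero] }
  set S := spanCycles W (pX X P m) (j : ℤ) with hS
  have hmap : ∀ {E : W.H X →ₗ[W.K] W.H X}, E ∈ KOp W X X 0 → ∀ x ∈ S, dm W P E m x ∈ S := by
    intro E hE x hx
    have h1 := KOp.map_span (dm_mem (P := P) hE m) hx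
    rwa [add_zero] at h1
  have hdm : (s' + ν' : Module.End W.K (W.H (pX X P m))) = dm W P μ m := by
    have h1 : μ = D.s + D.ν := D.sum
    rw [h1]
    exact (dm_add D.s D.ν m).symm
  have hle : S ≤ (S ⊓ s'.eigenspace c) ⊔ N := by
    refine le_sup_of_scalar (dm_comm D.comm m) (dm_nil D.nil m) htop (hmap D.hs) (hmap D.hν) ?_
    intro x hx β hβ
    rw [hdm, mul_sub, map_sub, mul_smul_comm, map_smul, h x hx β hβ, smul_eq_mul, sub_self]
  -- the rank
  set G : Submodule W.K (W.H (pX X P m)) := S ⊓ s'.eigenspace c with hG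
  have hGS : G ≤ S := inf_le_left
  have h1 : LinearMap.range (pair W (pX X P m) j l) ≤
      LinearMap.range (pair W (pX X P m) j l ∘ₗ Submodule.inclusion hGS) := by
    rintro _ ⟨x, rfl⟩
    obtain ⟨g, hg, n, hn, hgn⟩ := Submodule.mem_sup.1 (hle x.2)
    refine ⟨⟨g, hg⟩, ?_⟩
    apply LinearMap.ext
    intro β
    rw [LinearMap.comp_apply, pair_apply, pair_apply]
    change W.tr _ (g * (β : W.H (pX X P m))) =
      W.tr _ ((x : W.H (pX X P m)) * (β : W.H (pX X P m)))
    rw [← hgn, add_mul, map_add, ← span_comm β.2 n, hn _ β.2, add_zero]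
  have h2 : kRank W (pX X P m) j l ≤ Module.finrank W.K G :=
    (Submodule.finrank_mono h1).trans (LinearMap.finrank_range_le _)
  refine h2.trans ?_
  -- the coordinates
  set T := Finset.univ.filter fun I : Fin m → ι =>
      ∑ s, D.deg (I s) = 2 * j ∧ ∑ s, x (I s) = 0 with hT
  have hcoord : ∀ y ∈ G, ∀ I, I ∉ T → B.repr y I = 0 := by
    intro x hx I hI
    have hI' : ¬ (∑ s, D.deg (I s) = 2 * j) ∨ ¬ (∑ s, D.ev (I s) = c) := by
      by_contra hcon
      push Not at hcon
      exact hI (Finset.mem_filter.2 ⟨Finset.mem_univ I, hcon.1, hx0 I hcon.1 hcon.2⟩)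
    rcases hI' with h3 | h3
    · -- degrees
      have hx2 : x ∈ W.gr (pX X P m) (2 * j) := Pool.Agent.H914.span_gr hx.1
      have h4 : B.repr (proj (W.isInternal (pX X P m)) (2 * j) x) I = B.repr x I := by
        rw [proj_same _ hx2]
      have h5 : (B.coord I) ∘ₗ proj (W.isInternal (pX X P m)) (2 * j) = 0 := by
        apply B.ext
        intro J
        rw [LinearMap.comp_apply, LinearMap.zero_apply]
        by_cases hJ : ∑ t, D.deg (J t) = 2 * j
        · rw [← hJ, proj_same _ (hBg J), Basis.coord_apply, Basis.repr_self,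
            Finsupp.single_eq_of_ne]
          rintro rfl
          exact h3 hJ
        · rw [proj_ne _ (hBg J) hJ, map_zero]
      rw [← h4]
      exact congrArg (fun F => F x) h5
    · have hx2 : s' x = c • x := Module.End.mem_eigenspace_iff.1 hx.2
      have h5 : (B.coord I) ∘ₗ s' = (∑ t, D.ev (I t)) • B.coord I := by
        apply B.ext
        intro J
        rw [LinearMap.comp_apply, hBs, map_smul, LinearMap.smul_apply, Basis.coord_apply,
          Basis.repr_self]
        by_cases hJ : J = I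
        · rw [hJ]
        · rw [Finsupp.single_eq_of_ne (Ne.symm hJ), smul_zero, smul_zero]
      have h6 := congrArg (fun F => F x) h5
      beta_reduce at h6
      rw [LinearMap.comp_apply, hx2, map_smul, LinearMap.smul_apply, smul_eq_mul,
        smul_eq_mul] at h6
      have h7 : (c - ∑ t, D.ev (I t)) * B.coord I x = 0 := by rw [sub_mul, h6, sub_self]
      exact (mul_eq_zero.1 h7).resolve_left (sub_ne_zero.2 (Ne.symm h3))
  let F : G →ₗ[W.K] (T → W.K) :=
    { toFun := fun x I => B.repr (x : W.H (pX X P m)) I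
      map_add' := fun x y => by
        funext I
        simp
      map_smul' := fun r x => by
        funext I
        simp }
  have hF : Function.Injective F := by
    rw [← LinearMap.ker_eq_bot, LinearMap.ker_eq_bot']
    intro x hx
    apply Subtype.ext
    apply B.repr.injective
    rw [Submodule.coe_zero, map_zero]
    ext I
    by_cases hI : I ∈ T
    · exact congrFun hx ⟨I, hI⟩
    · exact hcoord x x.2 I hI
  have h3 := LinearMap.finrank_le_finrank_of_injective hF
  rwa [Module.finrank_fintype_fun_eq_card, Fintype.card_coe] at h3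

end Pool.Agent.V5helper86.GB
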