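import Pool.Agent.V5helper86.GB.StepH

/-!
# Maximal growth implies the Lefschetz standard conjecture
-/

open CategoryTheory AlgebraicGeometry TensorProduct Function Module Polynomial

universe u v w w'

set_option linter.unusedSectionVars false

namespace Pool.Agent.V5helper86.GB

open Pool.Agent.H914 Pool.Agent.H914.VarClass Pool.Agent.H914.VarClass.Obj
  Pool.Agent.H914.WeilCohomology Pool.Agent.R908 Pool.Agent.H447 Pool.Agent.N180.Cf
  Pool.Agent.W534 Pool.Agent.V5helper85.AB

variable {k : Type u} [Field k] {𝒱 : VarClass k} {ops : CycleOps 𝒱}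
  {W : WeilCohomology.{u, v} ops} {X Y Z V P : 𝒱.Obj}

/-! ### Uniformity in the number of factors -/

/-- The operators which give the intersection numbers of the derivatives of classes of cycles on
`X ^ m`, for `m ≤ M`. -/
def zset (W : WeilCohomology.{u, v} ops) (X P : 𝒱.Obj) (M : ℕ) : Set (W.H X →ₗ[W.K] W.H X) :=
  {z | ∃ m ≤ M, ∃ j l : ℕ, j + l = m * X.dim ∧ ∃ α ∈ spanCycles W (pX X P m) (j : ℤ),
    ∃ β ∈ spanCycles W (pX X P m) (l : ℤ), ∀ E : W.H X →ₗ[W.K] W.H X, IsHom (W.gr X) 0 E →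
      str W X (z ∘ₗ E) = W.tr _ (β * dm W P E m α)}

lemma zset_mono {M N : ℕ} (h : M ≤ N) : zset W X P M ⊆ zset W X P N := by
  rintro z ⟨m, hm, h1⟩
  exact ⟨m, hm.trans h, h1⟩

lemma exists_stab (W : WeilCohomology.{u, v} ops) (X P : 𝒱.Obj) : ∃ M₀, ∀ M,
    zset W X P M ⊆ Submodule.span W.K (zset W X P M₀) := by
  let f : ℕ →o Submodule W.K (W.H X →ₗ[W.K] W.H X) :=
    ⟨fun M => Submodule.span W.K (zset W X P M), fun M N h => Submodule.span_mono (zset_mono h)⟩
  obtain ⟨M₀, hM⟩ := (monotone_stabilizes_iff_noetherian (R := W.K)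
    (M := W.H X →ₗ[W.K] W.H X)).2 inferInstance f
  refine ⟨M₀, fun M z hz => ?_⟩
  rcases le_total M₀ M with h | h
  · have h1 : f M₀ = f M := hM M h
    have h2 : z ∈ f M := Submodule.subset_span hz
    rw [← h1] at h2
    exact h2
  · exact Submodule.subset_span (zset_mono h hz)

/-- **The derivation given by the weights kills all classes of cycles, modulo numerical
equivalence.** -/
lemma acts_D {κ : W.H X →ₗ[W.K] W.H X} (hκ : IsSign W X κ) (hP : IsPoint W P) {M₀ N : ℕ}
    (hM₀ : ∀ M, zset W X P M ⊆ Submodule.span W.K (zset W X P M₀))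
    {U : ℝ → Submodule W.K (W.H X)} (hU : Good W X {P} N U) (hN : M₀ ≤ N) {φ : ℝ →+ ℚ}
    {D : W.H X →ₗ[W.K] W.H X} (hD0 : IsHom (W.gr X) 0 D) (hD : ActsBy U φ D) :
    Acts W P 0 D := by
  have hPP : IsProductOf {P} P := IsProductOf.base rfl
  -- the bounded range
  have h1 : ∀ z ∈ zset W X P M₀, str W X (z ∘ₗ D) = 0 := by
    rintro z ⟨m, hm, j, l, hjl, α, hα, β, hβ, h⟩
    rw [h D hD0]
    have h2 := mem_zero_of_span hκ hU (hm.trans hN) hPP hα
    obtain ⟨t, ht, h3⟩ := dm_acts (Y := P) hD m 0 α h2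
    rw [map_zero, Rat.cast_zero, zero_smul, sub_zero] at h3
    rw [span_comm hβ]
    exact num_of_pos hκ hU (hm.trans hN) hPP ht h3 (l : ℤ) β hβ
  have h2 : ∀ z ∈ Submodule.span W.K (zset W X P M₀), str W X (z ∘ₗ D) = 0 := by
    intro z hz
    induction hz using Submodule.span_induction with
    | mem z hz => exact h1 z hz
    | zero => rw [LinearMap.zero_comp, str_zero]
    | add x y _ _ hx hy => rw [LinearMap.add_comp, str_add, hx, hy, add_zero]
    | smul c x _ hx => rw [LinearMap.smul_comp, str_smul, hx, mul_zero]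
  intro m j l hjl α hα β hβ
  have hij : (j : ℤ) + l = (pX X P m).dim := by
    rw [dim_pX hP]
    exact_mod_cast hjl
  obtain ⟨z, hz, h3⟩ := exists_z (P := P) hα hβ hij
  have h4 := h2 z (hM₀ m ⟨m, le_refl m, j, l, hjl, α, hα, β, hβ, h3⟩)
  rw [h3 D hD0] at h4
  rw [h4, zero_mul, Rat.cast_zero, zero_mul]

/-! ### The variety as a factor of its product with a point -/

lemma tr_point_rat (hP : IsPoint W P) : ∃ q : ℚ, q ≠ 0 ∧ W.tr P 1 = (q : W.K) := by
  have h1 : P.IsCyc P.dim P.V.fundCycle := by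
    rw [hP.1]
    exact P.V.fundCycle_mem
  have h2 := W.tr_cl h1
  rw [W.cl_fund] at h2
  refine ⟨_, ?_, h2⟩
  intro h0
  rw [h0, Rat.cast_zero] at h2
  exact hP.tr_ne h2

/-- The factor. -/
lemma exists_fac (W : WeilCohomology.{u, v} ops) (X : 𝒱.Obj) (hP : IsPoint W P) :
    ∃ f : Fac W X {P} (LinearMap.id : W.H X →ₗ[W.K] W.H X) X,
      (∀ j, f.m j = 1) ∧ ∀ D : W.H X →ₗ[W.K] W.H X, f.R D = D := by
  obtain ⟨q, hq, h1⟩ := tr_point_rat hP
  have hq0 : (q : W.K) ≠ 0 := Rat.cast_ne_zero.2 hq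
  have hpt : ∀ x : W.H X, W.push (fst X P) (W.map (fst X P) x) = (q : W.K) • x := by
    intro x
    apply W.tr_ext
    intro c
    rw [W.tr_push, ← map_mul, smul_mul_assoc, map_smul, ← h1, smul_eq_mul, mul_comm]
    have h2 := W.tr_prod (X := X) (Y := P) (x * c) 1
    rwa [map_one, mul_one] at h2
  have hπ : ∀ m, tp W P (LinearMap.id : W.H X →ₗ[W.K] W.H X) m = LinearMap.id := by
    intro m
    induction m with
    | zero => rfl
    | succ m ih =>
      change extHom W LinearMap.id (tp W P LinearMap.id m) = LinearMap.id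
      rw [ih]
      exact extHom_id
  have hb1 : ∀ x : W.H X, (((q⁻¹ : ℚ) : W.K) • W.push (fst X P)) (W.map (fst X P) x) = x := by
    intro x
    rw [LinearMap.smul_apply, hpt, smul_smul, Rat.cast_inv, inv_mul_cancel₀ hq0, one_smul]
  let f : Fac W X {P} (LinearMap.id : W.H X →ₗ[W.K] W.H X) X :=
    { J := Unit
      fin := inferInstance
      m := fun _ => 1
      Y := fun _ => P
      hY := fun _ => IsProductOf.base rfl
      d := fun _ => 0
      a := fun _ => (W.map (fst X P)).toLinearMap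
      b := fun _ => ((q⁻¹ : ℚ) : W.K) • W.push (fst X P)
      ha := fun _ => qop_pull (fst X P)
      hb := fun _ => by
        have h2 := (qop_push (W := W) (fst X P)).smul q⁻¹
        refine h2.cast ?_
        rw [dim_prod, hP.1]
        push_cast
        ring
      hab := by
        apply LinearMap.ext
        intro x
        rw [Fintype.sum_unique]
        exact hb1 x
      hπa := fun _ => by
        rw [hπ]
        rfl
      hπb := fun _ => by
        rw [hπ]
        rfl }
  refine ⟨f, fun _ => rfl, fun D => ?_⟩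
  apply LinearMap.ext
  intro x
  rw [Fac.R_apply]
  change ∑ j : Unit, (((q⁻¹ : ℚ) : W.K) • W.push (fst X P)) ((extHom W D LinearMap.id +
    extHom W LinearMap.id (0 : W.H P →ₗ[W.K] W.H P) : W.H (X.prod P) →ₗ[W.K] W.H (X.prod P))
      (W.map (fst X P) x)) = D x
  rw [Fintype.sum_unique, extHom_zero_right, add_zero]
  have h2 : extHom W D (LinearMap.id : W.H P →ₗ[W.K] W.H P) (W.map (fst X P) x) =
      W.map (fst X P) (D x) := by
    have h3 := extHom_tmul (W := W) D (LinearMap.id : W.H P →ₗ[W.K] W.H P) x 1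
    rwa [map_one, mul_one, LinearMap.id_apply, map_one, mul_one] at h3
  rw [h2]
  exact hb1 (D x)

/-- Operators which are orthogonal to all algebraic operators are numerically trivial. -/
lemma ntOp_of_str {a : W.H X →ₗ[W.K] W.H X} (ha : a ∈ KOp W X X 0)
    (h : ∀ b ∈ KOp W X X 0, str W X (a ∘ₗ b) = 0) : NTOp W X X 0 a := by
  obtain ⟨γ, hγ, rfl⟩ := mem_KOp_iff.1 ha
  refine ⟨γ, hγ, ?_, rfl⟩
  intro j g hg
  rw [add_zero] at hγ
  have h1 := Pool.Agent.H914.span_gr hγ
  by_cases hj : j = (X.dim : ℤ)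
  · subst hj
    rw [tr_mul_eq_trace h1]
    have h2 : W.corr (W.map (swap X X) g) ∈ KOp W X X 0 := by
      rw [mem_KOp_iff]
      exact ⟨_, by rw [add_zero]; exact span_map _ hg, rfl⟩
    exact h _ h2
  · induction hg using Submodule.span_induction with
    | mem g hg =>
      obtain ⟨p, hp, z, hz, rfl⟩ := hg
      refine W.tr_eq_zero (W.mul_mem h1 (W.cl_mem hz)) ?_
      rw [dim_prod]
      omega
    | zero => rw [mul_zero, map_zero]
    | add x y _ _ hx hy => rw [mul_add, map_add, hx, hy, add_zero]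
    | smul c x _ hx => rw [mul_smul_comm, map_smul, hx, smul_zero]

/-- **Maximal growth implies the Lefschetz standard conjecture.** -/
theorem lefB_of_growth [IsAlgClosed W.K] (hpar : par (W.isInternal X) ∈ KOp W X X 0)
    (hP : IsPoint W P) {S : Set ℝ} (hS : Separating (2 * X.dim) S) (hpos : ∀ u ∈ S, 0 < u)
    (hgrow : ∀ u ∈ S, MaxGrowth W X u) {E : X.Cycles} (hE : X.IsCyc 1 E)
    (hHL : HardLefschetz W X E) : LefschetzB W X E := by
  have hκ : IsSign W X (par (W.isInternal X)) :=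
    ⟨hpar, fun _ _ ha => scal_apply (W.isInternal X) _ ha⟩
  have hop := hop_mem hpar hP hS hpos hgrow
  have hpr : ∀ i, proj (W.isInternal X) i ∈ KOp W X X 0 := proj_of_hop hop
  obtain ⟨M₀, hM₀⟩ := exists_stab W X P
  obtain ⟨U, hU, -⟩ := exists_good hκ (homEqNum_prods hP) (M₀ + 2)
  obtain ⟨f, hfm, hfR⟩ := exists_fac W X hP
  have hN : ∀ i j, f.m i + f.m j ≤ M₀ + 2 := fun i j => by rw [hfm, hfm]; omega
  obtain ⟨l, a, w, ha, hw⟩ := Pool.Agent.N180.Cf.exists_adapted U hU.jumps
  have hcf : CF (f.F U) := f.cf a ⟨ha, hw⟩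
  refine lefB_of_weights ⟨hcf, fun d φ hφ => f.kop_mem hκ hU hN hφ,
    fun d φ hφ => f.nt_raise hκ hU hN hφ hcf⟩ hpr ?_ hE hHL
  intro i l e w hew
  apply real_zero
  intro φ
  obtain ⟨D, hD0, hD⟩ := exists_D hU φ
  have hact := acts_D hκ hP hM₀ hU (by omega) hD0 hD
  have hDF : ActsBy (f.F U) φ D := by
    have h1 := f.R_acts hκ hU hN hD hcf
    rwa [hfR] at h1
  have hDm : ∀ t, ∀ x ∈ f.F U t, D x ∈ f.F U t := by
    intro t x hx
    have h1 := Up.mem hcf.anti (hDF t x hx)
    have h2 := Submodule.add_mem _ h1 (Submodule.smul_mem _ ((φ t : ℚ) : W.K) hx)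
    rwa [sub_add_cancel] at h2
  obtain ⟨l₀, e₀, w₀, h₀⟩ := hcf.exists_adapted
  obtain ⟨μ, hμ, hμs⟩ := exists_mu (W := W) (X := X) (E := D) (fun a ha h => by
    have h1 := f.nt_raise hκ hU hN (ntOp_of_str ha h) hcf
    rw [str]
    apply h₀.trace_zero
    intro t x hx
    exact Up.map (f := ⇑(par (W.isInternal X))) (f.kop_mem hκ hU hN hpar)
      (h1 t _ (hDm t x hx)))
  have hactμ := hact.of_repr hP hD0 hμ hμs
  obtain ⟨ι, hι, ⟨Dt⟩⟩ := exists_sdata hμ
  obtain ⟨ρ, hρ⟩ := exists_retract W.K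
  set ψ : W.K →+ ℚ := ρ.toAddMonoidHom with hψdef
  have hψ : ∀ q : ℚ, ψ (q : W.K) = q := by
    intro q
    have h1 : ρ (q : W.K) = q := by
      have h2 : (q : W.K) = q • (1 : W.K) := by rw [Rat.smul_one_eq_cast]
      rw [h2, map_smul, hρ, smul_eq_mul, mul_one]
    exact h1
  have hmom := moments hP Dt hactμ hψ hS hpos hgrow i
  simp only [zero_mul, sub_zero] at hmom
  rw [← map_sum] at hmom
  -- the trace
  have hpp : par (W.isInternal X) ∘ₗ proj (W.isInternal X) i =
      (-1 : W.K) ^ i • proj (W.isInternal X) i := by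
    apply LinearMap.ext
    intro x
    rw [LinearMap.comp_apply, LinearMap.smul_apply]
    exact scal_apply (W.isInternal X) _ (H914.proj_mem (W.isInternal X) i x)
  have hstr : ∀ R : W.H X →ₗ[W.K] W.H X, str W X (proj (W.isInternal X) i ∘ₗ R) =
      (-1 : W.K) ^ i * LinearMap.trace W.K (W.H X) (proj (W.isInternal X) i * R) := by
    intro R
    rw [str, ← LinearMap.comp_assoc, hpp, LinearMap.smul_comp, map_smul, smul_eq_mul]
    rfl
  have h1 := hμs _ (hpr i)
  rw [hstr, hstr] at h1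
  have h2 := mul_left_cancel₀ (pow_ne_zero _ (neg_ne_zero.2 one_ne_zero)) h1
  have h3 := Pool.Agent.V5helper85.AB.trace_proj (F := f.F U) (p := proj (W.isInternal X) i)
    (proj_mul_proj (W.isInternal X) i) (f.kop_mem hκ hU hN (hpr i)) (U := W.gr X i)
    (fun x => ⟨fun h => proj_same _ h, fun h => by rw [← h]; exact H914.proj_mem _ _ _⟩) hew hDF
  have h4 : LinearMap.trace W.K (W.H X) (proj (W.isInternal X) i * μ) =
      ∑ a ∈ Finset.univ.filter (fun a => Dt.deg a = i), Dt.ev a := by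
    have h5 : LinearMap.trace W.K (W.H X) (proj (W.isInternal X) i * Dt.ν) = 0 := by
      have h6 : Commute (proj (W.isInternal X) i) Dt.ν := scal_comm Dt.hν _
      exact (LinearMap.isNilpotent_trace_of_isNilpotent (h6.isNilpotent_mul_left Dt.nil)).eq_zero
    have h6 : LinearMap.trace W.K (W.H X) (proj (W.isInternal X) i * Dt.s) =
        ∑ a, (if Dt.deg a = i then Dt.ev a else 0) := by
      apply trace_diag Dt.b
      intro a
      rw [Module.End.mul_apply, Dt.eig, map_smul]
      split_ifs with h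
      · rw [proj_same _ (h ▸ Dt.mem a)]
      · rw [proj_ne _ (Dt.mem a) h, smul_zero, zero_smul]
    conv_lhs => rw [Dt.sum]
    rw [mul_add, map_add, h5, h6, add_zero, Finset.sum_filter]
  have h5 : ((φ (∑ j, w j) : ℚ) : W.K) = ∑ a ∈ Finset.univ.filter (fun a => Dt.deg a = i), Dt.ev a := by
    rw [← h4, ← h2, map_sum, Rat.cast_sum]
    exact h3.symm
  rw [← h5, hψ] at hmom
  exact hmom

end Pool.Agent.V5helper86.GB
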