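import Pool.Agent.V5helper86.GB.Low
import Pool.Agent.V5helper86.GB.StepF
import Pool.Agent.R940.KBase

/-!
# From the lower bounds for the ranks to the maximal growth, and extension of the coefficients
-/

open CategoryTheory AlgebraicGeometry TensorProduct Function Module

universe u v

set_option linter.unusedSectionVars false

namespace Pool.Agent.V5helper86.GB

open Pool.Agent.H914 Pool.Agent.H914.VarClass Pool.Agent.H914.VarClass.Obj
  Pool.Agent.H914.WeilCohomology Pool.Agent.R908 Pool.Agent.H447 Pool.Agent.N180.Cf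
  Pool.Agent.W534 Pool.Agent.V5helper85.AB Pool.Agent.Y163 Pool.Agent.R940

variable {k : Type u} [Field k] {𝒱 : VarClass k} {ops : CycleOps 𝒱}
  {W : WeilCohomology.{u, v} ops} {X Y Z V P : 𝒱.Obj}

/-! ### Poincaré polynomials of the powers -/

/-- The trivial data. -/
noncomputable def sdataZero {ι : Type v} (b : Basis ι W.K (W.H V)) (deg : ι → ℕ)
    (mem : ∀ a, b a ∈ W.gr V (deg a)) : SData W (0 : Module.End W.K (W.H V)) ι where
  s := 0
  ν := 0
  hs := Submodule.zero_mem _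
  hν := Submodule.zero_mem _
  sum := (add_zero _).symm
  comm := Commute.zero_left _
  nil := IsNilpotent.zero
  b := b
  deg := deg
  ev := fun _ => 0
  mem := mem
  eig := fun a => by rw [zero_smul, LinearMap.zero_apply]

lemma mon_mem {ι : Type v} (B : HBasis W X ι) : ∀ (n : ℕ) (I : Fin (n + 1) → ι),
    mon B n I ∈ W.gr (pw X n) (∑ s, B.deg (I s))
  | 0, I => by
    rw [Fin.sum_univ_one]
    exact B.mem _
  | n + 1, I => by
    rw [Fin.sum_univ_succ]
    exact W.mul_mem (W.map_mem _ (B.mem _)) (W.map_mem _ (mon_mem B n (Fin.tail I)))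

lemma poincare_pw (W : WeilCohomology.{u, v} ops) (X : 𝒱.Obj) (n : ℕ) (t : ℝ) :
    poincare W (pw X n) t = poincare W X t ^ (n + 1) := by
  classical
  obtain ⟨ι, hfin, ⟨B⟩⟩ := exists_hbasis W X
  have hft : Fintype ι := Fintype.ofFinite ι
  obtain ⟨b, hb⟩ := exists_monBasis B n
  have h1 := (sdataZero B.b B.deg B.mem).sum_pow t
  have h2 := (sdataZero b (fun I => ∑ s, B.deg (I s)) (fun I => by
    rw [hb]; exact mon_mem B n I)).sum_pow t
  rw [← h1, ← h2, Fintype.sum_pow]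
  refine Finset.sum_congr rfl fun I _ => ?_
  exact (Finset.prod_pow_eq_pow_sum Finset.univ (fun s => B.deg (I s)) t).symm

lemma poincare_nonneg {t : ℝ} (ht : 0 ≤ t) : 0 ≤ poincare W X t :=
  Finset.sum_nonneg fun _ _ => mul_nonneg (Nat.cast_nonneg _) (pow_nonneg ht _)

lemma rankPoly_nonneg {t : ℝ} (ht : 0 ≤ t) : 0 ≤ rankPoly ops X t :=
  Finset.sum_nonneg fun _ _ => mul_nonneg (Nat.cast_nonneg _) (pow_nonneg ht _)

/-! ### Ranks of squares -/

lemma numRank_sq (W : WeilCohomology.{u, v} ops) (X : 𝒱.Obj) (n : ℕ) {j : ℕ}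
    (hj : j ≤ 2 * (pw X n).dim) :
    numRank ops (pw X (2 * n + 1)) j = numRank ops (sq X n) j := by
  have e : sq X n ≅ pw X (2 * n + 1) :=
    pwIso X n n ≪≫ eqToIso (by rw [show n + 1 + n = 2 * n + 1 by ring])
  have h1 : (sq X n).dim = 2 * (pw X n).dim := by
    rw [Pool.Agent.Y163.sq, dim_prod]; ring
  have h2 : (pw X (2 * n + 1)).dim = (sq X n).dim := by
    rw [h1, Pool.Agent.Y163.dim_pw, Pool.Agent.Y163.dim_pw]; ring
  rw [numRank_eq (W := W) (Z := sq X n) (by rw [h1]; exact hj),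
    numRank_eq (W := W) (Z := pw X (2 * n + 1)) (by rw [h2, h1]; exact hj), h2]
  exact (kRank_iso e h2 _ _).symm

lemma poly_le_exp (m : ℕ) (c : ℝ) {r : ℝ} (hr : 1 < r) :
    ∃ N : ℕ, ∀ n ≥ N, c * ((n : ℝ) + 1) ^ m ≤ r ^ (n + 1) := by
  have h1 := (tendsto_pow_const_div_const_pow_of_one_lt m hr).const_mul c
  rw [mul_zero] at h1
  have h2 := (h1.eventually_lt_const (zero_lt_one)).exists_forall_of_atTop
  obtain ⟨N, hN⟩ := h2
  refine ⟨N, fun n hn => ?_⟩
  have h3 := hN (n + 1) (by omega)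
  have h4 : (0 : ℝ) < r ^ (n + 1) := pow_pos (by linarith) _
  rw [← mul_div_assoc, div_lt_one h4] at h3
  push_cast at h3
  exact h3.le

lemma sub_exp (b : ℕ) {ε : ℝ} (hε : 0 < ε) :
    ∃ N : ℕ, ∀ n ≥ N, ((n : ℝ) + 2) ^ b ≤ (1 + ε) ^ n := by
  obtain ⟨N, hN⟩ := poly_le_exp b (2 ^ b * (1 + ε)) (r := 1 + ε) (by linarith)
  refine ⟨N, fun n hn => ?_⟩
  have h1 := hN n hn
  have h2 : ((n : ℝ) + 2) ^ b ≤ 2 ^ b * ((n : ℝ) + 1) ^ b := by
    rw [← mul_pow]
    exact pow_le_pow_left₀ (by positivity) (by linarith [Nat.cast_nonneg (α := ℝ) n]) _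
  have h3 : (0 : ℝ) < 1 + ε := by linarith
  have h4 : (1 + ε) * (((n : ℝ) + 2) ^ b) ≤ (1 + ε) * (1 + ε) ^ n := by
    rw [← pow_succ']
    calc (1 + ε) * (((n : ℝ) + 2) ^ b) ≤ (1 + ε) * (2 ^ b * ((n : ℝ) + 1) ^ b) :=
          mul_le_mul_of_nonneg_left h2 h3.le
      _ = 2 ^ b * (1 + ε) * ((n : ℝ) + 1) ^ b := by ring
      _ ≤ _ := h1
  exact le_of_mul_le_mul_left h4 h3

/-- The bounds for the ranks give the maximal growth. -/
lemma maxGrowth_of_sq (h : ∀ ε : ℝ, 0 < ε → ∀ M : ℕ, ∃ n ≥ M, ∀ e : ℕ,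
    (W.betti (pw X n) e : ℝ) ^ 2 ≤ (1 + ε) ^ n * (numRank ops (sq X n) e : ℝ)) {t : ℝ}
    (ht : 0 < t) : MaxGrowth W X t := by
  intro a ha0 ha M
  rcases ha0.eq_or_lt with rfl | ha0
  · exact ⟨M, le_rfl, by rw [zero_pow (Nat.succ_ne_zero _)]; exact rankPoly_nonneg ht.le⟩
  set p := poincare W X t with hp
  have hp0 : 0 < p := ha0.trans ha
  have hpa : a ^ 2 < p ^ 2 := pow_lt_pow_left₀ ha ha0.le two_ne_zero
  have ha2 : 0 < a ^ 2 := pow_pos ha0 2
  obtain ⟨ε, hε, hε2⟩ : ∃ ε : ℝ, 0 < ε ∧ (1 + ε) * a ^ 2 < p ^ 2 := by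
    refine ⟨(p ^ 2 - a ^ 2) / (2 * a ^ 2), div_pos (by linarith) (by linarith), ?_⟩
    have h1 : (1 + (p ^ 2 - a ^ 2) / (2 * a ^ 2)) * a ^ 2 = (p ^ 2 + a ^ 2) / 2 := by
      field_simp
      ring
    rw [h1]
    linarith
  have hε1 : (0 : ℝ) < 1 + ε := by linarith
  have hq : 1 < p ^ 2 / ((1 + ε) * a ^ 2) := by
    rw [one_lt_div (mul_pos hε1 ha2)]
    exact hε2
  obtain ⟨N, hN⟩ := poly_le_exp 1 (2 * X.dim + 1) hq
  obtain ⟨n, hn, hne⟩ := h ε hε (max M N)
  refine ⟨2 * n + 1, by have := le_trans (le_max_left M N) hn; omega, ?_⟩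
  have h1 := hN n (le_trans (le_max_right M N) hn)
  rw [pow_one, div_pow, le_div_iff₀ (pow_pos (mul_pos hε1 ha2) _)] at h1
  set d := (pw X n).dim with hd
  have hdim : (d : ℝ) = (n + 1) * X.dim := by
    rw [hd, Pool.Agent.Y163.dim_pw]; push_cast; ring
  -- the Poincaré polynomial of the power
  have h2 : poincare W (pw X n) t = p ^ (n + 1) := poincare_pw W X n t
  have h3 : (p ^ (n + 1)) ^ 2 ≤ ((2 * d + 1 : ℕ) : ℝ) *
      ∑ e ∈ Finset.range (2 * d + 1), ((W.betti (pw X n) e : ℝ) * t ^ e) ^ 2 := by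
    rw [← h2, poincare]
    refine (sq_sum_le_card_mul_sum_sq).trans ?_
    rw [Finset.card_range]
  have h4 : ∑ e ∈ Finset.range (2 * d + 1), ((W.betti (pw X n) e : ℝ) * t ^ e) ^ 2 ≤
      (1 + ε) ^ n * rankPoly ops (pw X (2 * n + 1)) t := by
    have hdd : (pw X (2 * n + 1)).dim = 2 * d := by
      rw [hd, Pool.Agent.Y163.dim_pw, Pool.Agent.Y163.dim_pw]; ring
    rw [rankPoly, hdd, Finset.mul_sum]
    refine Finset.sum_le_sum fun e he => ?_
    rw [Finset.mem_range] at he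
    rw [numRank_sq W X n (by omega), mul_pow, ← pow_mul, mul_comm e 2, ← mul_assoc]
    exact mul_le_mul_of_nonneg_right (hne e) (pow_nonneg ht.le _)
  have h5 : ((2 * d + 1 : ℕ) : ℝ) ≤ (2 * X.dim + 1) * ((n : ℝ) + 1) := by
    push_cast
    rw [hdim]
    nlinarith [Nat.cast_nonneg (α := ℝ) n]
  have h6 : (0 : ℝ) < ((2 * d + 1 : ℕ) : ℝ) := by positivity
  have h7 : (0 : ℝ) < (1 + ε) ^ (n + 1) := pow_pos hε1 _
  have hR := rankPoly_nonneg (ops := ops) (X := pw X (2 * n + 1)) ht.le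
  have h8 : ((2 * d + 1 : ℕ) : ℝ) * (1 + ε) ^ (n + 1) * a ^ (2 * (n + 1)) ≤
      ((2 * d + 1 : ℕ) : ℝ) * (1 + ε) ^ (n + 1) * rankPoly ops (pw X (2 * n + 1)) t := by
    calc ((2 * d + 1 : ℕ) : ℝ) * (1 + ε) ^ (n + 1) * a ^ (2 * (n + 1))
        ≤ ((2 * X.dim + 1) * ((n : ℝ) + 1)) * ((1 + ε) * a ^ 2) ^ (n + 1) := by
          rw [mul_pow, ← pow_mul, mul_assoc]
          exact mul_le_mul_of_nonneg_right h5 (by positivity)
      _ ≤ (p ^ 2) ^ (n + 1) := h1
      _ = (p ^ (n + 1)) ^ 2 := by ring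
      _ ≤ ((2 * d + 1 : ℕ) : ℝ) * ((1 + ε) ^ n * rankPoly ops (pw X (2 * n + 1)) t) :=
          h3.trans (mul_le_mul_of_nonneg_left h4 h6.le)
      _ ≤ ((2 * d + 1 : ℕ) : ℝ) * ((1 + ε) ^ (n + 1) * rankPoly ops (pw X (2 * n + 1)) t) := by
          refine mul_le_mul_of_nonneg_left (mul_le_mul_of_nonneg_right ?_ hR) h6.le
          exact pow_le_pow_right₀ (by linarith) (Nat.le_succ n)
      _ = _ := by ring
  have h9 := le_of_mul_le_mul_left h8 (mul_pos h6 h7)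
  rwa [show 2 * (n + 1) = 2 * n + 1 + 1 by ring] at h9

/-! ### Extension of the coefficients -/

section Base

variable (L : Type v) [Field L] [Algebra W.K L]

lemma betti_base (i : ℕ) : (baseW W L).betti X i = W.betti X i :=
  finrank_base L (W.gr X i)

lemma poincare_base (t : ℝ) : poincare (baseW W L) X t = poincare W X t := by
  refine Finset.sum_congr rfl fun i _ => ?_
  rw [betti_base]

lemma maxGrowth_base (t : ℝ) : MaxGrowth (baseW W L) X t ↔ MaxGrowth W X t := by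
  rw [MaxGrowth, MaxGrowth, poincare_base]

lemma isPoint_base (hP : IsPoint W P) : IsPoint (baseW W L) P :=
  ⟨hP.1, (finrank_baseW L).trans hP.2⟩

/-- The Lefschetz standard conjecture after extension of the coefficients. -/
lemma lefschetzB_up {E : V.Cycles} (hE : V.IsCyc 1 E) (hHL : HardLefschetz W V E)
    (hB : LefschetzB W V E) : LefschetzB (baseW W L) V E := by
  apply lefschetzB_of_inj hE (base_hardLefschetz hE hHL)
  intro c hc
  obtain ⟨-, θ, hθ, η, -, h⟩ := star_of_B hE hHL hB (e := V.dim + c) (by omega)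
  refine ⟨(θ.baseChange L : L ⊗[W.K] W.H V →ₗ[L] L ⊗[W.K] W.H V), ?_, ?_⟩
  · have h1 := KOp.base (L := L) hθ
    exact KOp.cast h1 (by push_cast; ring)
  · intro a ha h0
    have key : ∀ x ∈ (W.gr V (V.dim + c)).baseChange L,
        (η.baseChange L : L ⊗[W.K] W.H V →ₗ[L] L ⊗[W.K] W.H V)
          ((θ.baseChange L : L ⊗[W.K] W.H V →ₗ[L] L ⊗[W.K] W.H V) x) = x := by
      intro x hx
      refine base_induction_mod (P := fun x : L ⊗[W.K] W.H V =>
        (η.baseChange L : L ⊗[W.K] W.H V →ₗ[L] L ⊗[W.K] W.H V)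
          ((θ.baseChange L : L ⊗[W.K] W.H V →ₗ[L] L ⊗[W.K] W.H V) x) = x) ?_ ?_ ?_ hx
      · rw [map_zero, map_zero]
      · intro x y h2 h3
        rw [map_add, map_add, h2, h3]
      · intro l x hx
        rw [LinearMap.baseChange_tmul, LinearMap.baseChange_tmul, h x hx]
    have h1 := key a ha
    have h2 : (θ.baseChange L : L ⊗[W.K] W.H V →ₗ[L] L ⊗[W.K] W.H V) a = 0 := h0
    rw [h2, map_zero] at h1
    exact h1.symm

end Base

end Pool.Agent.V5helper86.GB
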