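import Pool.Agent.V5helper86.GB.Pw

/-!
# The lower bound for the ranks of the groups of cycles on the squares of the powers
-/

open CategoryTheory AlgebraicGeometry TensorProduct Function Module

universe u v

set_option linter.unusedSectionVars false

namespace Pool.Agent.V5helper86.GB

open Pool.Agent.H914 Pool.Agent.H914.VarClass Pool.Agent.H914.VarClass.Obj
  Pool.Agent.H914.WeilCohomology Pool.Agent.R908 Pool.Agent.H447 Pool.Agent.N180.Cf
  Pool.Agent.W534 Pool.Agent.V5helper85.AB Pool.Agent.Y163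

variable {k : Type u} [Field k] {𝒱 : VarClass k} {ops : CycleOps 𝒱}
  {W : WeilCohomology.{u, v} ops} {X Y Z V P : 𝒱.Obj}

lemma exists_dual_bt {K : Type*} [Field K] {V₁ V₂ : Type*} [AddCommGroup V₁] [Module K V₁]
    [AddCommGroup V₂] [Module K V₂] [Module.Finite K V₁] [Module.Finite K V₂]
    (P : Submodule K (V₁ →ₗ[K] V₂)) (Q : Submodule K (V₂ →ₗ[K] V₁)) (h : Module.End K V₂)
    (f : Module.End K V₁) (r : K) : ∃ (x : Fin (mu P Q h f) → P) (y : Fin (mu P Q h f) → Q),
    ∀ a b, bt P Q h f (x a) (y b) = if a = b then r else 0 :=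
  exists_dual_family (bt P Q h f) r

/-- The projection to the part of degree `e`. -/
noncomputable def pe (W : WeilCohomology.{u, v} ops) (V : 𝒱.Obj) (e : ℕ) :
    W.H V →ₗ[W.K] W.gr V e :=
  (proj (W.isInternal V) e).codRestrict (W.gr V e) (H914.proj_mem (W.isInternal V) e)

lemma pe_coe (e : ℕ) (x : W.H V) : (pe W V e x : W.H V) = proj (W.isInternal V) e x := rfl

lemma pe_of_mem {e : ℕ} {x : W.H V} (hx : x ∈ W.gr V e) : (pe W V e x : W.H V) = x :=
  proj_same (W.isInternal V) hx

lemma deg0_pe {e : ℕ} {f : Module.End W.K (W.H V)} (hf : Deg0 f) (x : W.H V) :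
    (pe W V e (f x) : W.H V) = f (pe W V e x) := by
  refine gr_induction (W.isInternal V)
    (p := fun x => (pe W V e (f x) : W.H V) = f (pe W V e x)) ?_ ?_ x
  · intro l b hb
    by_cases hl : l = e
    · subst hl
      rw [pe_of_mem (hf _ _ hb), pe_of_mem hb]
    · rw [pe_coe, pe_coe, proj_ne (W.isInternal V) (hf _ _ hb) hl,
        proj_ne (W.isInternal V) hb hl, map_zero]
  · intro a b ha hb
    rw [map_add, map_add, map_add, Submodule.coe_add, Submodule.coe_add, map_add, ha, hb]

/-- The restriction of an operator to the part of degree `e`. -/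
noncomputable def res (e : ℕ) (f : Module.End W.K (W.H V)) : Module.End W.K (W.gr V e) :=
  pe W V e ∘ₗ f ∘ₗ (W.gr V e).subtype

lemma res_coe {e : ℕ} {f : Module.End W.K (W.H V)} (hf : Deg0 f) (x : W.gr V e) :
    (res e f x : W.H V) = f x :=
  pe_of_mem (hf _ _ x.2)

lemma res_mul {e : ℕ} {f g : Module.End W.K (W.H V)} (hf : Deg0 f) (hg : Deg0 g) :
    res e (f * g) = res e f * res e g := by
  apply LinearMap.ext
  intro x
  apply Subtype.ext
  have hfg : Deg0 (f * g) := fun i a ha => hf i _ (hg i a ha)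
  rw [res_coe hfg, Module.End.mul_apply, Module.End.mul_apply, res_coe hf, res_coe hg]

lemma res_one (e : ℕ) : res e (1 : Module.End W.K (W.H V)) = 1 := by
  apply LinearMap.ext
  intro x
  apply Subtype.ext
  exact pe_of_mem x.2

lemma res_add (e : ℕ) (f g : Module.End W.K (W.H V)) : res e (f + g) = res e f + res e g := by
  rw [res, LinearMap.add_comp, LinearMap.comp_add]
  rfl

lemma res_smul (e : ℕ) (c : W.K) (f : Module.End W.K (W.H V)) :
    res e (c • f) = c • res e f := by
  rw [res, LinearMap.smul_comp, LinearMap.comp_smul]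
  rfl

lemma trace_res (e : ℕ) (f : Module.End W.K (W.H V)) :
    LinearMap.trace W.K _ (res e f) =
      LinearMap.trace W.K _ (f * proj (W.isInternal V) e) := by
  have h1 : f * proj (W.isInternal V) e = (f ∘ₗ (W.gr V e).subtype) ∘ₗ pe W V e := rfl
  rw [h1, LinearMap.trace_comp_comm']
  rfl

/-- The algebra of the restrictions of the algebraic correspondences. -/
noncomputable def RAlg (W : WeilCohomology.{u, v} ops) (V : 𝒱.Obj) (e : ℕ) :
    Subalgebra W.K (Module.End W.K (W.gr V e)) where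
  carrier := {g | ∃ f ∈ KOp W V V 0, res e f = g}
  mul_mem' := by
    rintro _ _ ⟨f, hf, rfl⟩ ⟨g, hg, rfl⟩
    exact ⟨f * g, (KAlg W V).mul_mem hf hg, res_mul (deg0_of_mem hf) (deg0_of_mem hg)⟩
  add_mem' := by
    rintro _ _ ⟨f, hf, rfl⟩ ⟨g, hg, rfl⟩
    exact ⟨f + g, Submodule.add_mem _ hf hg, res_add _ _ _⟩
  algebraMap_mem' := fun r => by
    refine ⟨r • 1, Submodule.smul_mem _ _ (KOp.id V), ?_⟩
    rw [res_smul, res_one, Algebra.algebraMap_eq_smul_one]

lemma par_gr {i : ℕ} {a : W.H V} (ha : a ∈ W.gr V i) :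
    par (W.isInternal V) a = (-1 : W.K) ^ i • a := scal_apply (W.isInternal V) _ ha

/-- **The intersection pairing in complementary degrees.** -/
lemma nu_le {e : ℕ} (he : e ≤ 2 * V.dim) (hS : Star W V e) :
    nu (RAlg W V e) ≤ kRank W (V.prod V) e (2 * V.dim - e) := by
  obtain ⟨hπ, θ, hθ, η, hη, hηθ⟩ := hS
  set π := proj (W.isInternal V) e with hπdef
  obtain ⟨x, y, hxy⟩ := exists_dual_bt (Subalgebra.toSubmodule (RAlg W V e))
    (Subalgebra.toSubmodule (RAlg W V e)) 1 1 (1 : W.K)
  have hx : ∀ a, ∃ f ∈ KOp W V V 0, res e f = (x a : Module.End W.K (W.gr V e)) :=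
    fun a => (x a).2
  have hy : ∀ a, ∃ f ∈ KOp W V V 0, res e f = (y a : Module.End W.K (W.gr V e)) :=
    fun a => (y a).2
  choose X hXm hX using hx
  choose Y hYm hY using hy
  have hc : ∀ a, ∃ c ∈ spanCycles W (V.prod V) ((e : ℕ) : ℤ),
      W.corr c = X a ∘ₗ π ∘ₗ η := by
    intro a
    have h1 : X a ∘ₗ π ∘ₗ η ∈ KOp W V V ((e : ℤ) - V.dim) :=
      KOp.cast (KOp.comp (hXm a) (KOp.comp hπ hη)) (by ring)
    obtain ⟨c, hc, hc'⟩ := mem_KOp_iff.1 h1
    rw [show (V.dim : ℤ) + ((e : ℤ) - V.dim) = ((e : ℕ) : ℤ) by ring] at hc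
    exact ⟨c, hc, hc'⟩
  have hd : ∀ b, ∃ d ∈ spanCycles W (V.prod V) ((2 * V.dim - e : ℕ) : ℤ),
      W.corr (W.map (swap V V) d) = θ ∘ₗ π ∘ₗ Y b := by
    intro b
    have h1 : θ ∘ₗ π ∘ₗ Y b ∈ KOp W V V ((V.dim : ℤ) - e) :=
      KOp.cast (KOp.comp hθ (KOp.comp hπ (hYm b))) (by ring)
    obtain ⟨c, hc, hc'⟩ := mem_KOp_iff.1 h1
    rw [show (V.dim : ℤ) + ((V.dim : ℤ) - e) = ((2 * V.dim - e : ℕ) : ℤ) by omega] at hc
    refine ⟨W.map (swap V V) c, Pool.Agent.Y163.map_span _ hc, ?_⟩
    rw [map_swap_swap', hc']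
  choose c hcm hc using hc
  choose d hdm hd using hd
  have key : ∀ a b, W.tr (V.prod V) (c a * d b) = if a = b then (-1 : W.K) ^ e else 0 := by
    intro a b
    rw [tr_mul_eq_trace' (Pool.Agent.H914.span_gr (hcm a)), hc, hd]
    have h1 : par (W.isInternal V) ∘ₗ (X a ∘ₗ π ∘ₗ η) ∘ₗ (θ ∘ₗ π ∘ₗ Y b) =
        (-1 : W.K) ^ e • ((X a ∘ₗ π) ∘ₗ Y b) := by
      apply LinearMap.ext
      intro z
      have hz : π (Y b z) ∈ W.gr V e := H914.proj_mem (W.isInternal V) e _
      rw [LinearMap.comp_apply, LinearMap.comp_apply, LinearMap.comp_apply, LinearMap.comp_apply,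
        LinearMap.comp_apply, LinearMap.comp_apply, hηθ _ hz, LinearMap.smul_apply,
        LinearMap.comp_apply, LinearMap.comp_apply, proj_same (W.isInternal V) hz,
        par_gr (deg0_of_mem (hXm a) _ _ hz)]
    rw [h1, map_smul, LinearMap.trace_comp_comm']
    have h2 : Y b ∘ₗ (X a ∘ₗ π) = (Y b * X a) * π := rfl
    rw [h2, ← trace_res, res_mul (deg0_of_mem (hYm b)) (deg0_of_mem (hXm a)), hX, hY]
    have h3 := hxy a b
    rw [bt_apply] at h3
    have h4 : ((y b : Module.End W.K (W.gr V e)) * (x a : Module.End W.K (W.gr V e))) =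
        (y b : Module.End W.K (W.gr V e)) ∘ₗ (1 : Module.End W.K (W.gr V e)) ∘ₗ
          (x a : Module.End W.K (W.gr V e)) ∘ₗ (1 : Module.End W.K (W.gr V e)) := rfl
    rw [h4, h3, smul_eq_mul]
    split_ifs
    · rw [mul_one]
    · rw [mul_zero]
  have h2 := le_rank_of_dual (form W (V.prod V) e (2 * V.dim - e) 1)
    (fun a => ⟨c a, hcm a⟩) (fun a => ⟨d a, hdm a⟩) (fun _ => (-1 : W.K) ^ e)
    (fun _ => pow_ne_zero _ (neg_ne_zero.2 one_ne_zero)) (fun a b => by
      rw [form_apply]
      exact key a b)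
  rw [Fintype.card_fin] at h2
  exact h2

/-- The action of the symmetric group in the degree `e`. -/
noncomputable def rhoE (W : WeilCohomology.{u, v} ops) (X : 𝒱.Obj) (n e : ℕ) :
    Equiv.Perm (Fin (n + 1)) →* Module.End W.K (W.gr (pw X n) e) where
  toFun σ := res e (rho W X n σ)
  map_one' := by rw [map_one, res_one]
  map_mul' σ τ := by
    rw [map_mul, res_mul (deg0_of_mem (rho_mem n σ)) (deg0_of_mem (rho_mem n τ))]

lemma finrank_comm_le' (n e : ℕ) : finrank W.K (comm (rhoE W X n e)) ≤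
    (n + 2) ^ (finrank W.K (W.H X) ^ 2) := by
  refine le_trans ?_ (finrank_comm_le (W := W) (X := X) n)
  let F : comm (rhoE W X n e) →ₗ[W.K] comm (rho W X n) :=
    { toFun := fun g => ⟨(W.gr (pw X n) e).subtype ∘ₗ (g : Module.End W.K _) ∘ₗ
          pe W (pw X n) e, by
        intro σ
        apply LinearMap.ext
        intro x
        have hσ := deg0_of_mem (rho_mem (W := W) (X := X) n σ)
        have h1 : pe W (pw X n) e (rho W X n σ x) =
            rhoE W X n e σ (pe W (pw X n) e x) := by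
          apply Subtype.ext
          rw [deg0_pe hσ]
          exact (res_coe hσ _).symm
        have h2 := congrArg (fun f => f (pe W (pw X n) e x)) (g.2 σ)
        simp only [Module.End.mul_apply] at h2
        rw [Module.End.mul_apply, Module.End.mul_apply, LinearMap.comp_apply,
          LinearMap.comp_apply, LinearMap.comp_apply, LinearMap.comp_apply, h1, h2]
        exact res_coe hσ _⟩
      map_add' := fun g h => Subtype.ext (by
        apply LinearMap.ext
        intro x
        rfl)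
      map_smul' := fun c g => Subtype.ext (by
        apply LinearMap.ext
        intro x
        rfl) }
  apply LinearMap.finrank_le_finrank_of_injective (f := F)
  intro g h hgh
  apply Subtype.ext
  apply LinearMap.ext
  intro x
  have h1 := congrArg (fun f => f (x : W.H (pw X n))) (congrArg Subtype.val hgh)
  have h2 : pe W (pw X n) e (x : W.H (pw X n)) = x := Subtype.ext (pe_of_mem x.2)
  have h3 : ∀ g : comm (rhoE W X n e), (F g : Module.End W.K _) (x : W.H (pw X n)) =
      ((g : Module.End W.K (W.gr (pw X n) e)) x : W.H (pw X n)) := by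
    intro g
    change ((g : Module.End W.K (W.gr (pw X n) e)) (pe W (pw X n) e (x : W.H (pw X n))) :
      W.H (pw X n)) = _
    rw [h2]
  apply Subtype.ext
  rw [← h3, ← h3]
  exact h1

/-- **The lower bound for the ranks of the groups of cycles.** -/
theorem betti_sq_le [IsAlgClosed W.K] {D : X.Cycles} (hD : X.IsCyc 1 D)
    (hHL : HardLefschetz W X D) (hB : LefschetzB W X D) (n e : ℕ) :
    W.betti (pw X n) e ^ 2 ≤
      (n + 2) ^ (finrank W.K (W.H X) ^ 2) * numRank ops (sq X n) e := by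
  by_cases he : e ≤ 2 * (pw X n).dim
  · have hS := star_of_B (pwDiv_cyc (ops := ops) hD n) (pw_hard hD hHL n) (pw_B hD hHL hB n) he
    have h1 := sq_le_nu_mul (rhoE W X n e) (RAlg W (pw X n) e)
      (fun σ => ⟨_, rho_mem n σ, rfl⟩)
    have hdim : (sq X n).dim = 2 * (pw X n).dim := by
      rw [Pool.Agent.Y163.sq, dim_prod]
      ring
    rw [numRank_eq (W := W) (Z := sq X n) (j := e) (by rw [hdim]; exact he), hdim]
    calc W.betti (pw X n) e ^ 2 ≤ nu (RAlg W (pw X n) e) *
          finrank W.K (comm (rhoE W X n e)) := h1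
      _ ≤ kRank W (sq X n) e (2 * (pw X n).dim - e) * (n + 2) ^ (finrank W.K (W.H X) ^ 2) :=
        Nat.mul_le_mul (nu_le he hS) (finrank_comm_le' n e)
      _ = _ := Nat.mul_comm _ _
  · have h1 : W.betti (pw X n) e = 0 := by
      rw [betti, W.gr_eq_bot (pw X n) e (by omega)]
      exact finrank_bot _ _
    rw [h1, zero_pow two_ne_zero]
    exact Nat.zero_le _

end Pool.Agent.V5helper86.GB
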