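import Pool.Agent.V5helper86.GB.Act
import Pool.Agent.V5helper85.AB.Core

/-!
# Maximal growth implies that the Künneth projectors are algebraic
-/

open CategoryTheory AlgebraicGeometry TensorProduct Function Module Polynomial

universe u v w w'

set_option linter.unusedSectionVars false

namespace Pool.Agent.V5helper86.GB

open Pool.Agent.H914 Pool.Agent.H914.VarClass Pool.Agent.H914.VarClass.Obj
  Pool.Agent.H914.WeilCohomology Pool.Agent.R908 Pool.Agent.H447 Pool.Agent.N180.Cf
  Pool.Agent.W534 Pool.Agent.V5helper85.AB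

section Real

/-- Second moments of averages over the classes of a partition. -/
lemma block_sum {ι β : Type*} [Fintype ι] [DecidableEq β] (g : ι → β) (r y : ι → ℚ)
    (hr : ∀ a a', g a' = g a → r a' = r a)
    (h : ∀ a, ((Finset.univ.filter fun a' => g a' = g a).card : ℚ) * r a =
      ∑ a' ∈ Finset.univ.filter (fun a' => g a' = g a), y a') :
    ∑ a, r a * r a = ∑ a, r a * y a := by
  classical
  rw [← Finset.sum_fiberwise_of_maps_to (s := Finset.univ) (t := Finset.univ.image g) (g := g)
      (fun a _ => Finset.mem_image_of_mem _ (Finset.mem_univ a)),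
    ← Finset.sum_fiberwise_of_maps_to (s := Finset.univ) (t := Finset.univ.image g) (g := g)
      (f := fun a => r a * y a) (fun a _ => Finset.mem_image_of_mem _ (Finset.mem_univ a))]
  refine Finset.sum_congr rfl fun b hb => ?_
  obtain ⟨a, -, rfl⟩ := Finset.mem_image.1 hb
  have h1 : ∀ F : ι → ℚ, ∑ a' ∈ Finset.univ.filter (fun a' => g a' = g a), r a' * F a' =
      r a * ∑ a' ∈ Finset.univ.filter (fun a' => g a' = g a), F a' := by
    intro F
    rw [Finset.mul_sum]
    refine Finset.sum_congr rfl fun a' ha' => ?_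
    rw [hr a a' (Finset.mem_filter.1 ha').2]
  rw [h1 r, h1 y, ← h a]
  congr 1
  rw [← nsmul_eq_mul, ← Finset.sum_const]
  exact Finset.sum_congr rfl fun a' ha' => hr a a' (Finset.mem_filter.1 ha').2

/-- The averages agree with the degrees. -/
lemma eq_of_moments {ι β : Type*} [Fintype ι] [DecidableEq β] (g : ι → β) (r : ι → ℚ)
    (deg : ι → ℕ) (d : ℚ) (hr : ∀ a a', g a' = g a → r a' = r a)
    (h : ∀ a, ((Finset.univ.filter fun a' => g a' = g a).card : ℚ) * r a =
      ∑ a' ∈ Finset.univ.filter (fun a' => g a' = g a), ((deg a' : ℚ) - d))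
    (hm : ∀ i, ∑ a ∈ Finset.univ.filter (fun a => deg a = i), (r a - ((deg a : ℚ) - d)) = 0)
    (a : ι) : r a = (deg a : ℚ) - d := by
  classical
  set y : ι → ℚ := fun a => (deg a : ℚ) - d with hy
  have h1 := block_sum g r y hr h
  have h2 : ∑ a, (r a - y a) * y a = 0 := by
    rw [← Finset.sum_fiberwise_of_maps_to (s := Finset.univ) (t := Finset.univ.image deg)
      (g := deg) (fun a _ => Finset.mem_image_of_mem _ (Finset.mem_univ a))]
    refine Finset.sum_eq_zero fun i _ => ?_
    have h3 : ∑ a ∈ Finset.univ.filter (fun a => deg a = i), (r a - y a) * y a =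
        (∑ a ∈ Finset.univ.filter (fun a => deg a = i), (r a - y a)) * ((i : ℚ) - d) := by
      rw [Finset.sum_mul]
      refine Finset.sum_congr rfl fun a ha => ?_
      rw [← (Finset.mem_filter.1 ha).2]
    rw [h3, hm i, zero_mul]
  have h3 : ∑ a, (r a - y a) ^ 2 = 0 := by
    have h4 : ∀ a, (r a - y a) ^ 2 = r a * r a - r a * y a - (r a - y a) * y a := fun a => by ring
    rw [Finset.sum_congr rfl fun a _ => h4 a, Finset.sum_sub_distrib, Finset.sum_sub_distrib,
      h1, h2, sub_self, sub_zero]
  have h4 := (Finset.sum_eq_zero_iff_of_nonneg fun a _ => sq_nonneg (r a - y a)).1 h3 a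
    (Finset.mem_univ a)
  exact sub_eq_zero.1 (pow_eq_zero_iff (two_ne_zero) |>.1 h4)

end Real

variable {k : Type u} [Field k] {𝒱 : VarClass k} {ops : CycleOps 𝒱}
  {W : WeilCohomology.{u, v} ops} {X Y Z V P : 𝒱.Obj}

lemma scal_comm {a : Module.End W.K (W.H X)} (ha : a ∈ KOp W X X 0) (f : ℕ → W.K) :
    scal (W.isInternal X) f * a = a * scal (W.isInternal X) f := by
  apply gr_ext (W.isInternal X)
  intro i x hx
  rw [Module.End.mul_apply, Module.End.mul_apply, scal_apply _ _ hx,
    scal_apply _ _ (Pool.Agent.Y163.deg0_of_mem ha i x hx), map_smul]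

lemma str_nil {a : Module.End W.K (W.H X)} (ha : a ∈ KOp W X X 0) (hn : IsNilpotent a)
    (f : ℕ → W.K) : str W X (a ∘ₗ scal (W.isInternal X) f) = 0 := by
  have h1 : par (W.isInternal X) ∘ₗ (a ∘ₗ scal (W.isInternal X) f) =
      a * (par (W.isInternal X) * scal (W.isInternal X) f) := by
    change par (W.isInternal X) * (a * scal (W.isInternal X) f) = _
    rw [← mul_assoc, par, scal_comm ha, mul_assoc]
  have h2 : Commute a (par (W.isInternal X) * scal (W.isInternal X) f) := by
    rw [par, scal_mul]
    exact (scal_comm ha _).symm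
  rw [str, h1]
  exact (LinearMap.isNilpotent_trace_of_isNilpotent (h2.isNilpotent_mul_right hn)).eq_zero

/-- Numerically trivial operators are nilpotent. -/
lemma nil_of_str (hpar : par (W.isInternal X) ∈ KOp W X X 0) {a : Module.End W.K (W.H X)}
    (ha : a ∈ KOp W X X 0) (h : ∀ b ∈ KOp W X X 0, str W X (a ∘ₗ b) = 0) : IsNilpotent a := by
  have h1 : ∀ y ∈ KOp W X X 0, LinearMap.trace W.K (W.H X) (a * y) = 0 := by
    intro y hy
    have h2 := h (y * par (W.isInternal X)) (kop_mul0 _ hy _ hpar)
    rw [str] at h2
    change LinearMap.trace W.K (W.H X) (par (W.isInternal X) * (a * (y *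
      par (W.isInternal X)))) = 0 at h2
    rw [LinearMap.trace_mul_comm] at h2
    have h3 : a * (y * par (W.isInternal X)) * par (W.isInternal X) = a * y := by
      have h4 : par (W.isInternal X) * par (W.isInternal X) = 1 := par_par
      rw [mul_assoc, mul_assoc, h4, mul_one]
    rwa [h3] at h2
  apply isNilpotent_of_trace_pow
  intro r
  rw [pow_succ']
  refine h1 _ ?_
  have h2 : a ^ r ∈ Pool.Agent.Y163.KAlg W X := Subalgebra.pow_mem _ ha r
  exact h2

lemma aeval_eig {K : Type*} [Field K] {V : Type*} [AddCommGroup V] [Module K V]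
    {s : Module.End K V} {c : K} {x : V} (h : s x = c • x) (p : K[X]) :
    aeval s p x = p.eval c • x := by
  induction p using Polynomial.induction_on' with
  | add p q hp hq => rw [map_add, LinearMap.add_apply, hp, hq, eval_add, add_smul]
  | monomial n a =>
    have h1 : ∀ n : ℕ, (s ^ n) x = c ^ n • x := by
      intro n
      induction n with
      | zero => rw [pow_zero, pow_zero, one_smul, Module.End.one_apply]
      | succ n ih => rw [pow_succ', Module.End.mul_apply, ih, map_smul, h, smul_smul, pow_succ]
    rw [aeval_monomial, eval_monomial, ← Algebra.smul_def, LinearMap.smul_apply, h1, smul_smul]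

lemma aeval_comm {K : Type*} [Field K] {V : Type*} [AddCommGroup V] [Module K V]
    {s ν : Module.End K V} (h : Commute s ν) (p : K[X]) : Commute (aeval s p) ν := by
  induction p using Polynomial.induction_on' with
  | add p q hp hq => rw [map_add]; exact hp.add_left hq
  | monomial n a =>
    rw [aeval_monomial]
    exact (Algebra.commute_algebraMap_left a ν).mul_left (h.pow_left n)

/-- The Künneth projectors are polynomials in the degree operator. -/
lemma proj_of_hop (h : hop W X ∈ KOp W X X 0) (i : ℕ) :
    proj (W.isInternal X) i ∈ KOp W X X 0 := by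
  classical
  by_cases hi : i < 2 * X.dim + 1
  · let vv : ℕ → W.K := fun j => (j : W.K) - X.dim
    have hinj : Set.InjOn vv (Finset.range (2 * X.dim + 1)) := by
      intro a _ b _ hab
      have h2 : (a : W.K) = b := by
        have h3 : (a : W.K) - X.dim = (b : W.K) - X.dim := hab
        linear_combination h3
      exact_mod_cast h2
    have h1 : proj (W.isInternal X) i = aeval (hop W X : Module.End W.K (W.H X))
        (Lagrange.basis (Finset.range (2 * X.dim + 1)) vv i) := by
      apply gr_ext (W.isInternal X)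
      intro j x hx
      have h0 : (hop W X : Module.End W.K (W.H X)) x = vv j • x := hop_apply hx
      rw [aeval_eig h0]
      by_cases hj : j < 2 * X.dim + 1
      · by_cases hij : j = i
        · subst hij
          rw [proj_same _ hx, Lagrange.eval_basis_self hinj (Finset.mem_range.2 hi), one_smul]
        · rw [proj_ne _ hx hij, Lagrange.eval_basis_of_ne (Ne.symm hij) (Finset.mem_range.2 hj),
            zero_smul]
      · rw [W.gr_eq_bot X j (by omega), Submodule.mem_bot] at hx
        rw [hx, map_zero, smul_zero]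
    rw [h1]
    exact kop_aeval h _
  · have h1 : proj (W.isInternal X) i = 0 := by
      apply LinearMap.ext
      intro x
      have h2 := H914.proj_mem (W.isInternal X) i x
      rw [W.gr_eq_bot X i (by omega), Submodule.mem_bot] at h2
      rw [h2, LinearMap.zero_apply]
    rw [h1]
    exact Submodule.zero_mem _

/-- **Maximal growth implies that the degree operator is algebraic.** -/
theorem hop_mem [IsAlgClosed W.K] (hpar : par (W.isInternal X) ∈ KOp W X X 0)
    (hP : IsPoint W P) {S : Set ℝ} (hS : Separating (2 * X.dim) S) (hpos : ∀ u ∈ S, 0 < u)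
    (hgrow : ∀ u ∈ S, MaxGrowth W X u) : hop W X ∈ KOp W X X 0 := by
  classical
  obtain ⟨μ, hμ, hμs⟩ := exists_mu (W := W) (X := X) (E := hop W X) (fun a ha h =>
    str_nil ha (nil_of_str hpar ha h) _)
  obtain ⟨ι, hι, ⟨D⟩⟩ := exists_sdata hμ
  have hact : Acts W P 1 μ := (acts_hop hP).of_repr hP hop_isHom hμ hμs
  obtain ⟨ρ, hρ⟩ := exists_retract W.K
  set ψ : W.K →+ ℚ := ρ.toAddMonoidHom with hψdef
  have hψ : ∀ q : ℚ, ψ (q : W.K) = q := by
    intro q
    have h1 : ρ (q : W.K) = q := by
      have h2 : (q : W.K) = q • (1 : W.K) := by rw [Rat.smul_one_eq_cast]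
      rw [h2, map_smul, hρ, smul_eq_mul, mul_one]
    exact h1
  have hmom := moments hP D hact hψ hS hpos hgrow
  -- the blocks
  set g : ι → W.K × ℕ := fun a => (D.ev a, D.deg a % 2) with hg
  have hpow : ∀ n : ℕ, (-1 : W.K) ^ n = (-1) ^ (n % 2) := by
    intro n
    conv_lhs => rw [← Nat.div_add_mod n 2, pow_add, pow_mul]
    simp
  have hblock : ∀ a, ((Finset.univ.filter fun a' => g a' = g a).card : W.K) * D.ev a =
      ∑ a' ∈ Finset.univ.filter (fun a' => g a' = g a), ((D.deg a' : W.K) - X.dim) := by
    intro a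
    set p := Lagrange.basis (Finset.univ.image D.ev) id (D.ev a) with hp
    have hpe : ∀ a', p.eval (D.ev a') = if D.ev a' = D.ev a then 1 else 0 := by
      intro a'
      split_ifs with h
      · rw [h]
        exact Lagrange.eval_basis_self (v := id) (Set.injOn_id _)
          (Finset.mem_image_of_mem _ (Finset.mem_univ a))
      · exact Lagrange.eval_basis_of_ne (v := id) (Ne.symm h)
          (Finset.mem_image_of_mem _ (Finset.mem_univ a'))
    set e : Module.End W.K (W.H X) := aeval D.s p * ((2 : W.K)⁻¹ • (1 + (-1 : W.K) ^ (D.deg a) •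
      par (W.isInternal X))) with he
    have heK : e ∈ KOp W X X 0 := by
      refine kop_mul0 _ (kop_aeval D.hs p) _ ?_
      exact Submodule.smul_mem _ _ (Submodule.add_mem _ (KOp.id X)
        (Submodule.smul_mem _ _ hpar))
    have hparb : ∀ a', par (W.isInternal X) (D.b a') = (-1 : W.K) ^ (D.deg a') • D.b a' :=
      fun a' => scal_apply (W.isInternal X) _ (D.mem a')
    have heb : ∀ a', e (D.b a') = (if g a' = g a then (1 : W.K) else 0) • D.b a' := by
      intro a'
      have h1 : ((2 : W.K)⁻¹ • (1 + (-1 : W.K) ^ (D.deg a) • par (W.isInternal X)) :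
          Module.End W.K (W.H X)) (D.b a') = ((2 : W.K)⁻¹ * (1 + (-1 : W.K) ^ (D.deg a) *
            (-1 : W.K) ^ (D.deg a'))) • D.b a' := by
        rw [LinearMap.smul_apply, LinearMap.add_apply, LinearMap.smul_apply, hparb,
          Module.End.one_apply]
        module
      rw [he, Module.End.mul_apply, h1, map_smul, aeval_eig (D.eig a'), hpe, smul_smul]
      congr 1
      have h2 : (2 : W.K) ≠ 0 := two_ne_zero
      rw [hpow (D.deg a), hpow (D.deg a')]
      rcases Nat.mod_two_eq_zero_or_one (D.deg a) with h3 | h3 <;>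
      rcases Nat.mod_two_eq_zero_or_one (D.deg a') with h4 | h4 <;>
      by_cases h5 : D.ev a' = D.ev a <;>
      simp [hg, h3, h4, h5] <;> field_simp <;> norm_num
    have hscal : ∀ {R : Module.End W.K (W.H X)} {c : ι → W.K}, (∀ a', R (D.b a') = c a' • D.b a') →
        str W X (e ∘ₗ R) = (-1 : W.K) ^ (D.deg a) *
          ∑ a' ∈ Finset.univ.filter (fun a' => g a' = g a), c a' := by
      intro R c hR
      rw [str, trace_diag D.b (c := fun a' => (if g a' = g a then (-1 : W.K) ^ (D.deg a) * c a'
        else 0))]
      · rw [← Finset.sum_filter, ← Finset.mul_sum]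
      · intro a'
        rw [LinearMap.comp_apply, LinearMap.comp_apply, hR, map_smul, map_smul, heb, map_smul,
          hparb, smul_smul, smul_smul]
        congr 1
        split_ifs with h
        · have h6 : D.deg a' % 2 = D.deg a % 2 := congrArg Prod.snd h
          rw [hpow (D.deg a'), hpow (D.deg a), h6]
          ring
        · ring
    have h1 := hμs e heK
    have h2 : str W X (e ∘ₗ μ) = str W X (e ∘ₗ D.s) + str W X (e ∘ₗ D.ν) := by
      conv_lhs => rw [D.sum]
      rw [LinearMap.comp_add, str_add]
    have h3 : str W X (e ∘ₗ D.ν) = 0 := by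
      have hcomm : Commute e D.ν := by
        rw [he]
        refine Commute.mul_left ?_ ?_
        · exact aeval_comm D.comm p
        · refine Commute.smul_left ?_ _
          refine (Commute.one_left _).add_left (Commute.smul_left ?_ _)
          exact scal_comm D.hν _
      have h4 : e ∘ₗ D.ν = (D.ν * e) ∘ₗ scal (W.isInternal X) (fun _ => 1) := by
        rw [scal_one]
        exact hcomm.eq
      rw [h4]
      refine str_nil (kop_mul0 _ D.hν _ heK) (hcomm.symm.isNilpotent_mul_right D.nil) _
    rw [h2, h3, add_zero, hscal (fun a' => D.eig a'), hscal (fun a' => hop_apply (D.mem a'))] at h1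
    have h4 := mul_left_cancel₀ (pow_ne_zero _ (neg_ne_zero.2 one_ne_zero)) h1
    rw [h4, ← nsmul_eq_mul, ← Finset.sum_const]
    refine Finset.sum_congr rfl fun a' ha' => ?_
    exact (congrArg Prod.fst (Finset.mem_filter.1 ha').2).symm
  -- the eigenvalues are rational
  set r : ι → ℚ := fun a => (∑ a' ∈ Finset.univ.filter (fun a' => g a' = g a),
    ((D.deg a' : ℚ) - X.dim)) / ((Finset.univ.filter fun a' => g a' = g a).card : ℚ) with hr
  have hcard : ∀ a, (Finset.univ.filter fun a' => g a' = g a).card ≠ 0 := fun a =>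
    Finset.card_ne_zero_of_mem (Finset.mem_filter.2 ⟨Finset.mem_univ a, rfl⟩)
  have hev : ∀ a, D.ev a = (r a : W.K) := by
    intro a
    have h1 := hblock a
    have h2 : ((Finset.univ.filter fun a' => g a' = g a).card : W.K) ≠ 0 :=
      Nat.cast_ne_zero.2 (hcard a)
    rw [hr]
    push_cast
    rw [← h1, mul_div_cancel_left₀ _ h2]
  have hψr : ∀ a, ψ (D.ev a) = r a := fun a => by rw [hev, hψ]
  have hfin := eq_of_moments g r D.deg X.dim (fun a a' h => by
    have h1 : D.ev a' = D.ev a := congrArg Prod.fst h
    rw [← hψr, ← hψr, h1]) (fun a => by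
    have h2 : ((Finset.univ.filter fun a' => g a' = g a).card : ℚ) ≠ 0 :=
      Nat.cast_ne_zero.2 (hcard a)
    rw [hr]
    exact mul_div_cancel₀ _ h2) (fun i => by
    have h1 := hmom i
    rw [← h1]
    refine Finset.sum_congr rfl fun a _ => ?_
    rw [hψr, one_mul])
  have hs : hop W X = D.s := by
    apply D.b.ext
    intro a
    rw [hop_apply (D.mem a), D.eig, hev]
    congr 1
    rw [hfin a]
    push_cast
    ring
  rw [hs]
  exact D.hs

end Pool.Agent.V5helper86.GB
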